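import Pool.Agent.RX.EPS.Defs

/-! Squad EPS (MP_73ccd0_lc). -/

namespace Pool.Agent.RX.EPS

open Set Finset

set_option linter.unusedSectionVars false

variable {V : Type*} [Fintype V] [DecidableEq V]
variable {U : Finset V} {x : V → V → ℝ} {κ G f : V → ℝ} {T : V → V → ℝ}
variable {m lam g s M β c : ℝ} {ψ : ℝ → ℝ}

/-- `Σ_c f_c Σ_b T_cb D_b ≤ m Σ_{c,b} x_cb (f_c G_c) (G_b D_b)`; Cauchy-Schwarz over the pairs:
`≤ m √(Σ_c (f_c G_c)² (1 - κ_c)) √(Σ_b (1 - κ_b - x_zb) (G_b D_b)²)`; first factor: `f_c² G_c² (1 - κ_c) ≤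
f_c G_c² κ_c (1 - κ_c) ≤ f_c s²`; second factor: hypothesis `hpt` (proved in the module TDz) and
`Σ_b x z b ≤ 1`. -/
theorem A_type (h : Wx U x κ) (hK : Kx U x κ G m lam g s T) (hf : Fw U κ f M)
    {z : V} (hz : z ∈ U)
    (hpt : ∀ b ∈ U, (1 - κ b - x z b) * (G b ^ 2 * (x z b * ψ (x z b) ^ 2)) ≤ (c / 2 * g) ^ 2)
    (c0 : 0 ≤ c) (β0 : 0 ≤ β) {D : V → ℝ} (D0 : ∀ e, 0 ≤ D e)
    (hD : ∀ e ∈ U.erase z, D e ≤ β * (x z e * ψ (x z e))) :
    ∑ d ∈ U.erase z, f d * ∑ b ∈ U.erase z, T d b * D b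
      ≤ m * (s * (β * (c / 2 * g))) * Real.sqrt M := by
  classical
  set E := U.erase z with hE
  have hEU : ∀ b ∈ E, b ∈ U := fun b hb => Finset.mem_of_mem_erase hb
  have s0 := hK.s0
  have g0 := hK.g0
  have hC0 : 0 ≤ s * (β * (c / 2 * g)) := by positivity
  -- first step
  have h1 : ∑ d ∈ E, f d * ∑ b ∈ E, T d b * D b
      ≤ m * ∑ d ∈ E, ∑ b ∈ E, x d b * ((f d * G d) * (G b * D b)) := by
    rw [Finset.mul_sum]
    refine Finset.sum_le_sum fun d hd => ?_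
    rw [Finset.mul_sum, Finset.mul_sum]
    refine Finset.sum_le_sum fun b hb => ?_
    calc f d * (T d b * D b) ≤ f d * (m * (x d b * (G d * G b)) * D b) :=
          mul_le_mul_of_nonneg_left
            (mul_le_mul_of_nonneg_right (hK.le d (hEU d hd) b (hEU b hb)) (D0 b)) (hf.f0 d)
      _ = m * (x d b * ((f d * G d) * (G b * D b))) := by ring
  have hprod : ∑ d ∈ E, ∑ b ∈ E, x d b * ((f d * G d) * (G b * D b))
      = ∑ p ∈ E ×ˢ E, x p.1 p.2 * ((f p.1 * G p.1) * (G p.2 * D p.2)) := by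
    rw [Finset.sum_product]
  have hcs := cs_sq (E ×ˢ E) (q := fun p : V × V => x p.1 p.2) (fun p _ => h.x0 p.1 p.2)
    (fun p => f p.1 * G p.1) (fun p => G p.2 * D p.2)
  have hA : ∑ p ∈ E ×ˢ E, x p.1 p.2 * (f p.1 * G p.1) ^ 2 ≤ s ^ 2 * M := by
    rw [Finset.sum_product]
    have hrow : ∀ d ∈ E, ∑ b ∈ E, x d b * (f d * G d) ^ 2 ≤ f d * s ^ 2 := by
      intro d hd
      have hdU := hEU d hd
      rw [← Finset.sum_mul]
      have h2 := h.rowS (Finset.erase_subset z U) hdU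
      have hκ1 := h.κ1 hdU
      have hf0 := hf.f0 d
      calc (∑ b ∈ E, x d b) * (f d * G d) ^ 2 ≤ (1 - κ d) * (f d * G d) ^ 2 :=
            mul_le_mul_of_nonneg_right h2 (sq_nonneg _)
        _ = f d * (f d * (G d ^ 2 * (1 - κ d))) := by ring
        _ ≤ f d * (κ d * (G d ^ 2 * (1 - κ d))) :=
            mul_le_mul_of_nonneg_left (mul_le_mul_of_nonneg_right (hf.fκ d hdU)
              (mul_nonneg (sq_nonneg _) hκ1)) hf0
        _ = f d * (G d ^ 2 * (κ d * (1 - κ d))) := by ring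
        _ ≤ f d * s ^ 2 := mul_le_mul_of_nonneg_left (hK.hs d hdU) hf0
    calc ∑ d ∈ E, ∑ b ∈ E, x d b * (f d * G d) ^ 2 ≤ ∑ d ∈ E, f d * s ^ 2 :=
          Finset.sum_le_sum hrow
      _ = (∑ d ∈ E, f d) * s ^ 2 := by rw [Finset.sum_mul]
      _ ≤ M * s ^ 2 := by
          refine mul_le_mul_of_nonneg_right ?_ (sq_nonneg _)
          exact (Finset.sum_le_sum_of_subset_of_nonneg (Finset.erase_subset z U)
            (fun i _ _ => hf.f0 i)).trans hf.fM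
      _ = s ^ 2 * M := mul_comm _ _
  have hB : ∑ p ∈ E ×ˢ E, x p.1 p.2 * (G p.2 * D p.2) ^ 2 ≤ (β * (c / 2 * g)) ^ 2 := by
    rw [Finset.sum_product_right]
    have hcol : ∀ b ∈ E, ∑ d ∈ E, x d b * (G b * D b) ^ 2
        ≤ x z b * (β * (c / 2 * g)) ^ 2 := by
      intro b hb
      have hbU := hEU b hb
      rw [← Finset.sum_mul]
      have e1 : ∑ d ∈ E, x d b = ∑ d ∈ E, x b d := Finset.sum_congr rfl fun d _ => h.xs d b
      rw [e1]
      have h2 : ∑ d ∈ E, x b d ≤ 1 - κ b - x z b := h.rowz hz (le_refl _) hbU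
      have h3 : 0 ≤ 1 - κ b - x z b := (Finset.sum_nonneg fun d _ => h.x0 b d).trans h2
      have hx0 := h.x0 z b
      have h4 : (G b * D b) ^ 2 ≤ (G b * (β * (x z b * ψ (x z b)))) ^ 2 :=
        pow_le_pow_left₀ (mul_nonneg (hK.G0 b hbU) (D0 b))
          (mul_le_mul_of_nonneg_left (hD b hb) (hK.G0 b hbU)) 2
      calc (∑ d ∈ E, x b d) * (G b * D b) ^ 2
          ≤ (1 - κ b - x z b) * (G b * (β * (x z b * ψ (x z b)))) ^ 2 :=
            mul_le_mul h2 h4 (sq_nonneg _) h3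
        _ = x z b * (β ^ 2 * ((1 - κ b - x z b) * (G b ^ 2 * (x z b * ψ (x z b) ^ 2)))) := by
            ring
        _ ≤ x z b * (β ^ 2 * (c / 2 * g) ^ 2) :=
            mul_le_mul_of_nonneg_left (mul_le_mul_of_nonneg_left (hpt b hbU) (sq_nonneg β)) hx0
        _ = x z b * (β * (c / 2 * g)) ^ 2 := by ring
    calc ∑ b ∈ E, ∑ d ∈ E, x d b * (G b * D b) ^ 2
        ≤ ∑ b ∈ E, x z b * (β * (c / 2 * g)) ^ 2 := Finset.sum_le_sum hcol
      _ = (∑ b ∈ E, x z b) * (β * (c / 2 * g)) ^ 2 := by rw [Finset.sum_mul]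
      _ ≤ 1 * (β * (c / 2 * g)) ^ 2 := by
          refine mul_le_mul_of_nonneg_right ?_ (sq_nonneg _)
          have h2 := h.rowS (Finset.erase_subset z U) hz
          have h3 := h.κ0 z hz
          linarith
      _ = (β * (c / 2 * g)) ^ 2 := one_mul _
  have hB0 : 0 ≤ ∑ p ∈ E ×ˢ E, x p.1 p.2 * (G p.2 * D p.2) ^ 2 :=
    Finset.sum_nonneg fun p _ => mul_nonneg (h.x0 _ _) (sq_nonneg _)
  have hX : ∑ d ∈ E, ∑ b ∈ E, x d b * ((f d * G d) * (G b * D b))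
      ≤ s * (β * (c / 2 * g)) * Real.sqrt M := by
    rw [hprod]
    have h2 : (∑ p ∈ E ×ˢ E, x p.1 p.2 * ((f p.1 * G p.1) * (G p.2 * D p.2))) ^ 2
        ≤ (s * (β * (c / 2 * g))) ^ 2 * M := by
      refine hcs.trans ?_
      calc (∑ p ∈ E ×ˢ E, x p.1 p.2 * (f p.1 * G p.1) ^ 2)
            * ∑ p ∈ E ×ˢ E, x p.1 p.2 * (G p.2 * D p.2) ^ 2
          ≤ (s ^ 2 * M) * (β * (c / 2 * g)) ^ 2 :=
            mul_le_mul hA hB hB0 (mul_nonneg (sq_nonneg _) hf.M0)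
        _ = (s * (β * (c / 2 * g))) ^ 2 * M := by ring
    have h3 := Real.le_sqrt_of_sq_le h2
    rwa [Real.sqrt_mul (sq_nonneg _), Real.sqrt_sq hC0] at h3
  calc ∑ d ∈ E, f d * ∑ b ∈ E, T d b * D b
      ≤ m * ∑ d ∈ E, ∑ b ∈ E, x d b * ((f d * G d) * (G b * D b)) := h1
    _ ≤ m * (s * (β * (c / 2 * g)) * Real.sqrt M) := mul_le_mul_of_nonneg_left hX hK.m0
    _ = m * (s * (β * (c / 2 * g))) * Real.sqrt M := by ring

end Pool.Agent.RX.EPS
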