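import Pool.Agent.RX.EPS.Defs

/-! Squad EPS (MP_73ccd0_lc). -/

namespace Pool.Agent.RX.EPS

open Set Finset

set_option linter.unusedSectionVars false

variable {V : Type*} [Fintype V] [DecidableEq V]
variable {U : Finset V} {x : V → V → ℝ} {κ G f : V → ℝ} {T : V → V → ℝ}
variable {m lam g s M β c : ℝ} {ψ : ℝ → ℝ}

/-- Cauchy-Schwarz over pairs with weights. -/
private theorem BTy_cs (A B : Finset V) (q : V → V → ℝ) (q0 : ∀ d b, 0 ≤ q d b)
    (v w : V → V → ℝ) :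
    (∑ d ∈ A, ∑ b ∈ B, q d b * (v d b * w d b)) ^ 2
      ≤ (∑ d ∈ A, ∑ b ∈ B, q d b * v d b ^ 2) * ∑ d ∈ A, ∑ b ∈ B, q d b * w d b ^ 2 := by
  have h := Finset.sum_mul_sq_le_sq_mul_sq (A ×ˢ B)
    (fun e => Real.sqrt (q e.1 e.2) * v e.1 e.2) (fun e => Real.sqrt (q e.1 e.2) * w e.1 e.2)
  rw [Finset.sum_product, Finset.sum_product, Finset.sum_product] at h
  have e1 : ∀ d b, Real.sqrt (q d b) * v d b * (Real.sqrt (q d b) * w d b)
      = q d b * (v d b * w d b) := fun d b => by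
    have := Real.mul_self_sqrt (q0 d b)
    calc _ = (Real.sqrt (q d b) * Real.sqrt (q d b)) * (v d b * w d b) := by ring
      _ = _ := by rw [this]
  have e2 : ∀ (u : V → V → ℝ) (d b), (Real.sqrt (q d b) * u d b) ^ 2 = q d b * u d b ^ 2 :=
    fun u d b => by rw [mul_pow, Real.sq_sqrt (q0 d b)]
  simp only [e1, e2] at h
  exact h

/-- `≤ m β G_z Σ_b x_zb G_b Σ_{d ≠ z} x_db f_d` (`T z b ≤ m x_zb G_z G_b`, the term `b = z` vanishes as
`x z z = 0`). Cauchy-Schwarz over the pairs `(b, d)`, weights `x_db`: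
`(..)² ≤ (Σ_b x_zb² G_b² Σ_{d ≠ z} x_db) (Σ_d f_d² Σ_b x_db) ≤ (Σ_b x_zb² G_b² (1 - κ_b - x_zb))
(Σ_d f_d² (1 - κ_d))`; `G_b² x_zb (1 - κ_b - x_zb) ≤ G_b² (1 - κ_b)² / 4 ≤ g² / 4`, `Σ_b x_zb ≤ 1 - κ_z`,
`f_d² (1 - κ_d) ≤ f_d / 4`; finally `G_z² (1 - κ_z) ≤ lam`. -/
theorem B_type (h : Wx U x κ) (hK : Kx U x κ G m lam g s T) (hf : Fw U κ f M)
    {z : V} (hz : z ∈ U) (β0 : 0 ≤ β) {D : V → V → ℝ} (D0 : ∀ c e, 0 ≤ D c e)
    (hD : ∀ c ∈ U, ∀ e ∈ U, D c e ≤ β * x c e) :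
    ∑ d ∈ U.erase z, f d * ∑ b ∈ U.erase d, T z b * D d b
      ≤ m * (Real.sqrt lam * (β * (g / 4))) * Real.sqrt M := by
  set R : ℝ := ∑ d ∈ U.erase z, ∑ b ∈ U, x d b * ((x z b * G b) * f d) with hR
  have R0 : 0 ≤ R := Finset.sum_nonneg fun d _ => Finset.sum_nonneg fun b hb =>
    mul_nonneg (h.x0 d b) (mul_nonneg (mul_nonneg (h.x0 z b) (hK.G0 b hb)) (hf.f0 d))
  -- step 1
  have h1 : ∑ d ∈ U.erase z, f d * ∑ b ∈ U.erase d, T z b * D d b ≤ m * β * (G z * R) := by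
    rw [hR, Finset.mul_sum, Finset.mul_sum]
    refine Finset.sum_le_sum fun d hd => ?_
    have hdU := Finset.mem_of_mem_erase hd
    have h2 : ∑ b ∈ U.erase d, T z b * D d b ≤ ∑ b ∈ U, T z b * D d b :=
      Finset.sum_le_sum_of_subset_of_nonneg (Finset.erase_subset _ _)
        fun b _ _ => mul_nonneg (hK.T0 z b) (D0 d b)
    have h3 : ∑ b ∈ U, T z b * D d b
        ≤ ∑ b ∈ U, (m * (x z b * (G z * G b))) * (β * x d b) := by
      refine Finset.sum_le_sum fun b hb => ?_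
      exact mul_le_mul (hK.le z hz b hb) (hD d hdU b hb) (D0 d b)
        (mul_nonneg hK.m0 (mul_nonneg (h.x0 z b) (mul_nonneg (hK.G0 z hz) (hK.G0 b hb))))
    have h4 := mul_le_mul_of_nonneg_left (h2.trans h3) (hf.f0 d)
    refine h4.trans (le_of_eq ?_)
    rw [Finset.mul_sum, Finset.mul_sum, Finset.mul_sum]
    exact Finset.sum_congr rfl fun b _ => by ring
  -- Cauchy-Schwarz
  have h5 := BTy_cs (U.erase z) U (fun d b => x d b) h.x0 (fun _ b => x z b * G b)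
    (fun d _ => f d)
  have hA : ∑ d ∈ U.erase z, ∑ b ∈ U, x d b * (x z b * G b) ^ 2 ≤ (1 - κ z) * (g ^ 2 / 4) := by
    rw [Finset.sum_comm]
    have h6 : ∀ b ∈ U, ∑ d ∈ U.erase z, x d b * (x z b * G b) ^ 2 ≤ x z b * (g ^ 2 / 4) := by
      intro b hb
      have h7 : ∑ d ∈ U.erase z, x d b * (x z b * G b) ^ 2
          = (∑ d ∈ U.erase z, x b d) * (x z b * G b) ^ 2 := by
        rw [Finset.sum_mul]
        exact Finset.sum_congr rfl fun d _ => by rw [h.xs d b]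
      have h8 := h.rowz hz (le_refl (U.erase z)) hb
      have h9 : (∑ d ∈ U.erase z, x b d) * (x z b * G b) ^ 2
          ≤ (1 - κ b - x z b) * (x z b * G b) ^ 2 :=
        mul_le_mul_of_nonneg_right h8 (sq_nonneg _)
      have hk := h.κ1 hb
      have hg := hK.hg b hb
      have hG := hK.G0 b hb
      have hx := h.x0 z b
      have h10 : (G b * (1 - κ b)) ^ 2 ≤ g ^ 2 :=
        pow_le_pow_left₀ (mul_nonneg hG hk) hg 2
      have h11 : x z b * (1 - κ b - x z b) ≤ (1 - κ b) ^ 2 / 4 := by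
        nlinarith [sq_nonneg (1 - κ b - 2 * x z b)]
      have h12 : (1 - κ b - x z b) * (x z b * G b) ^ 2
          = x z b * (G b ^ 2 * (x z b * (1 - κ b - x z b))) := by ring
      rw [h7]
      refine h9.trans ?_
      rw [h12]
      refine mul_le_mul_of_nonneg_left ?_ hx
      have h13 := mul_le_mul_of_nonneg_left h11 (sq_nonneg (G b))
      refine h13.trans ?_
      have : G b ^ 2 * ((1 - κ b) ^ 2 / 4) = (G b * (1 - κ b)) ^ 2 / 4 := by ring
      rw [this]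
      linarith
    refine (Finset.sum_le_sum h6).trans ?_
    rw [← Finset.sum_mul]
    exact mul_le_mul_of_nonneg_right (h.row z hz) (by positivity)
  have hB : ∑ d ∈ U.erase z, ∑ b ∈ U, x d b * f d ^ 2 ≤ M / 4 := by
    have h6 : ∀ d ∈ U.erase z, ∑ b ∈ U, x d b * f d ^ 2 ≤ f d / 4 := by
      intro d hd
      have hdU := Finset.mem_of_mem_erase hd
      rw [← Finset.sum_mul]
      have h7 := h.row d hdU
      have hk := h.κ1 hdU
      have h8 := hf.fκ d hdU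
      have h9 := hf.f0 d
      have h10 : (∑ b ∈ U, x d b) * f d ^ 2 ≤ (1 - κ d) * f d ^ 2 :=
        mul_le_mul_of_nonneg_right h7 (sq_nonneg _)
      refine h10.trans ?_
      have h11 : (1 - κ d) * f d ≤ (1 - κ d) * κ d := mul_le_mul_of_nonneg_left h8 hk
      have h12 : (1 - κ d) * κ d ≤ 1 / 4 := by nlinarith [sq_nonneg (1 - 2 * κ d)]
      have h13 : (1 - κ d) * f d ^ 2 = ((1 - κ d) * f d) * f d := by ring
      rw [h13]
      have h14 := mul_le_mul_of_nonneg_right (h11.trans h12) h9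
      linarith
    refine (Finset.sum_le_sum h6).trans ?_
    rw [← Finset.sum_div]
    have h15 : ∑ d ∈ U.erase z, f d ≤ ∑ d ∈ U, f d :=
      Finset.sum_le_sum_of_subset_of_nonneg (Finset.erase_subset _ _) fun b _ _ => hf.f0 b
    have := h15.trans hf.fM
    linarith
  have hB0 : 0 ≤ ∑ d ∈ U.erase z, ∑ b ∈ U, x d b * f d ^ 2 :=
    Finset.sum_nonneg fun d _ => Finset.sum_nonneg fun b _ =>
      mul_nonneg (h.x0 d b) (sq_nonneg _)
  have hkz := h.κ1 hz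
  have hRsq : R ^ 2 ≤ (1 - κ z) * (g ^ 2 / 4) * (M / 4) := by
    refine h5.trans ?_
    exact mul_le_mul hA hB hB0 (mul_nonneg hkz (by positivity))
  have hGz := hK.G0 z hz
  have hfin : G z * R ≤ Real.sqrt lam * (g / 4) * Real.sqrt M := by
    refine (sq_le_sq₀ (mul_nonneg hGz R0) (mul_nonneg (mul_nonneg (Real.sqrt_nonneg _)
      (div_nonneg hK.g0 (by norm_num))) (Real.sqrt_nonneg _))).1 ?_
    have e1 : (Real.sqrt lam * (g / 4) * Real.sqrt M) ^ 2 = lam * (g ^ 2 / 4) * (M / 4) := by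
      rw [mul_pow, mul_pow, Real.sq_sqrt hK.lam0, Real.sq_sqrt hf.M0]; ring
    rw [e1, mul_pow]
    have h16 := mul_le_mul_of_nonneg_left hRsq (sq_nonneg (G z))
    refine h16.trans ?_
    have h17 := mul_le_mul_of_nonneg_right (hK.hl z hz)
      (mul_nonneg (div_nonneg (sq_nonneg g) (by norm_num : (0:ℝ) ≤ 4))
        (div_nonneg hf.M0 (by norm_num : (0:ℝ) ≤ 4)))
    calc G z ^ 2 * ((1 - κ z) * (g ^ 2 / 4) * (M / 4))
        = (G z ^ 2 * (1 - κ z)) * (g ^ 2 / 4 * (M / 4)) := by ring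
      _ ≤ lam * (g ^ 2 / 4 * (M / 4)) := h17
      _ = lam * (g ^ 2 / 4) * (M / 4) := by ring
  refine h1.trans ?_
  have h18 := mul_le_mul_of_nonneg_left hfin (mul_nonneg hK.m0 β0)
  refine h18.trans (le_of_eq ?_)
  ring

end Pool.Agent.RX.EPS
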