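import Mathlib

/-! Squad EPS (MP_73ccd0_lc): norms of kernels on weighted graphs. Basic definitions. -/

namespace Pool.Agent.RX.EPS

open Set Finset

set_option linter.unusedSectionVars false

variable {V : Type*} [Fintype V] [DecidableEq V]

/-- the Euclidean norm on `U` -/
noncomputable def nm (U : Finset V) (u : V → ℝ) : ℝ := Real.sqrt (∑ e ∈ U, u e ^ 2)

theorem nm_nonneg (U : Finset V) (u : V → ℝ) : 0 ≤ nm U u := Real.sqrt_nonneg _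

theorem nm_sq (U : Finset V) (u : V → ℝ) : nm U u ^ 2 = ∑ e ∈ U, u e ^ 2 :=
  Real.sq_sqrt (Finset.sum_nonneg fun e _ => sq_nonneg (u e))

theorem nm_le {U : Finset V} {u : V → ℝ} {N : ℝ} (hN : 0 ≤ N) (h : ∑ e ∈ U, u e ^ 2 ≤ N ^ 2) :
    nm U u ≤ N := by
  unfold nm
  calc Real.sqrt (∑ e ∈ U, u e ^ 2) ≤ Real.sqrt (N ^ 2) := Real.sqrt_le_sqrt h
    _ = N := Real.sqrt_sq hN

theorem ip_le (U : Finset V) (w u : V → ℝ) : ∑ e ∈ U, w e * u e ≤ nm U w * nm U u :=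
  Real.sum_mul_le_sqrt_mul_sqrt U w u

/-- the weighted Cauchy-Schwarz inequality, with squares -/
theorem cs_sq (U : Finset V) {q : V → ℝ} (q0 : ∀ e ∈ U, 0 ≤ q e) (w u : V → ℝ) :
    (∑ e ∈ U, q e * (w e * u e)) ^ 2
      ≤ (∑ e ∈ U, q e * w e ^ 2) * ∑ e ∈ U, q e * u e ^ 2 := by
  have h := Finset.sum_mul_sq_le_sq_mul_sq U (fun e => Real.sqrt (q e) * w e)
    (fun e => Real.sqrt (q e) * u e)
  have e1 : ∑ e ∈ U, Real.sqrt (q e) * w e * (Real.sqrt (q e) * u e)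
      = ∑ e ∈ U, q e * (w e * u e) := Finset.sum_congr rfl fun e he => by
    have := Real.mul_self_sqrt (q0 e he)
    calc _ = (Real.sqrt (q e) * Real.sqrt (q e)) * (w e * u e) := by ring
      _ = _ := by rw [this]
  have e2 : ∀ v : V → ℝ, ∑ e ∈ U, (Real.sqrt (q e) * v e) ^ 2 = ∑ e ∈ U, q e * v e ^ 2 :=
    fun v => Finset.sum_congr rfl fun e he => by rw [mul_pow, Real.sq_sqrt (q0 e he)]
  rw [e1, e2, e2] at h
  exact h

/-- a kernel with norm at most `l` on nonnegative vectors -/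
def Op (X : Finset V) (K : V → V → ℝ) (l : ℝ) : Prop :=
  ∀ w u : V → ℝ, (∀ e ∈ X, 0 ≤ w e) → (∀ e ∈ X, 0 ≤ u e) →
    ∑ e ∈ X, w e * ∑ b ∈ X, K e b * u b ≤ l * (nm X w * nm X u)

/-- the pair operator -/
noncomputable def Qo (X : Finset V) (T : V → V → ℝ) (g a : V → ℝ) : ℝ :=
  ∑ x ∈ X, ∑ y ∈ X, T x y * (g x * (a x + a y))

/-- weights on the free vertices `U`; `κ u` = total weight from `u` to the removed vertices -/
structure Wx (U : Finset V) (x : V → V → ℝ) (κ : V → ℝ) : Prop where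
  xs : ∀ u v, x u v = x v u
  x0 : ∀ u v, 0 ≤ x u v
  xd : ∀ u, x u u = 0
  κ0 : ∀ u ∈ U, 0 ≤ κ u
  row : ∀ u ∈ U, ∑ v ∈ U, x u v ≤ 1 - κ u

namespace Wx

variable {U : Finset V} {x : V → V → ℝ} {κ : V → ℝ}

theorem κ1 (h : Wx U x κ) {u : V} (hu : u ∈ U) : 0 ≤ 1 - κ u :=
  (Finset.sum_nonneg fun v _ => h.x0 u v).trans (h.row u hu)

theorem le1 (h : Wx U x κ) {u v : V} (hu : u ∈ U) (hv : v ∈ U) : x u v ≤ 1 - κ u :=
  (Finset.single_le_sum (fun w _ => h.x0 u w) hv).trans (h.row u hu)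

/-- sums over a subset -/
theorem rowS (h : Wx U x κ) {S : Finset V} (hS : S ⊆ U) {u : V} (hu : u ∈ U) :
    ∑ v ∈ S, x u v ≤ 1 - κ u :=
  (Finset.sum_le_sum_of_subset_of_nonneg hS fun v _ _ => h.x0 u v).trans (h.row u hu)

/-- sums over a subset without `z` -/
theorem rowz (h : Wx U x κ) {S : Finset V} {z : V} (hz : z ∈ U) (hS : S ⊆ U.erase z) {u : V}
    (hu : u ∈ U) : ∑ v ∈ S, x u v ≤ 1 - κ u - x z u := by
  have h1 : ∑ v ∈ S, x u v ≤ ∑ v ∈ U.erase z, x u v :=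
    Finset.sum_le_sum_of_subset_of_nonneg hS fun v _ _ => h.x0 u v
  have h2 := Finset.add_sum_erase U (fun v => x u v) hz
  have h3 := h.row u hu
  rw [h.xs z u]
  linarith

end Wx

/-- a symmetric kernel with `T u v ≤ m x_uv G_u G_v`; `lam`, `g`, `s` bound the weights -/
structure Kx (U : Finset V) (x : V → V → ℝ) (κ G : V → ℝ) (m lam g s : ℝ)
    (T : V → V → ℝ) : Prop where
  m0 : 0 ≤ m
  Ts : ∀ u v, T u v = T v u
  T0 : ∀ u v, 0 ≤ T u v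
  le : ∀ u ∈ U, ∀ v ∈ U, T u v ≤ m * (x u v * (G u * G v))
  G0 : ∀ u ∈ U, 0 ≤ G u
  lam0 : 0 ≤ lam
  g0 : 0 ≤ g
  s0 : 0 ≤ s
  hl : ∀ u ∈ U, G u ^ 2 * (1 - κ u) ≤ lam
  hg : ∀ u ∈ U, G u * (1 - κ u) ≤ g
  hs : ∀ u ∈ U, G u ^ 2 * (κ u * (1 - κ u)) ≤ s ^ 2

/-- profile of the sources `D c e ≤ β x_ce ψ (x_ce)` -/
structure Ps (ψ : ℝ → ℝ) (c : ℝ) : Prop where
  p0 : ∀ v ∈ Icc (0 : ℝ) 1, 0 ≤ ψ v
  mono : ∀ u v, 0 ≤ u → u ≤ v → v ≤ 1 → ψ u ≤ ψ v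
  c0 : 0 ≤ c
  hc : ∀ v ∈ Icc (0 : ℝ) 1, v * (1 - v) * ψ v ^ 2 ≤ (c / 2) ^ 2

/-- the weights of the summation -/
structure Fw (U : Finset V) (κ f : V → ℝ) (M : ℝ) : Prop where
  f0 : ∀ c, 0 ≤ f c
  fκ : ∀ c ∈ U, f c ≤ κ c
  M0 : 0 ≤ M
  fM : ∑ c ∈ U, f c ≤ M

end Pool.Agent.RX.EPS
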