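import Pool.Agent.RX.EPS.Defs

/-! Squad EPS (MP_73ccd0_lc). -/

namespace Pool.Agent.RX.EPS

open Set Finset

set_option linter.unusedSectionVars false

variable {V : Type*} [Fintype V] [DecidableEq V]
variable {U : Finset V} {x : V → V → ℝ} {κ G f : V → ℝ} {T : V → V → ℝ}
variable {m lam g s M β c : ℝ} {ψ : ℝ → ℝ}

/-- Summed sources. `(Σ_c f_c D_c(e))² ≤ β² (Σ_c x_ec f_c ψ(x_ce))² ≤ β² Σ_c x_ec f_c² ψ(x_ce)²`
(Cauchy-Schwarz `cs_sq`, `Σ_c x_ec ≤ 1`); exchange the sums; `x_ce ≤ 1 - κ_c`, so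
`Σ_e x_ce ψ(x_ce)² ≤ (1 - κ_c) ψ(1 - κ_c)²`, and `f_c (1 - κ_c) ψ(1 - κ_c)² ≤ κ_c (1 - κ_c) ψ(1 - κ_c)²
≤ (c / 2)²`; `Σ f_c ≤ M`. -/
theorem Df_norm (h : Wx U x κ) (hf : Fw U κ f M) (hψ : Ps ψ c) (β0 : 0 ≤ β) {D : V → V → ℝ}
    (D0 : ∀ c e, 0 ≤ D c e) (hD : ∀ c ∈ U, ∀ e ∈ U, D c e ≤ β * (x c e * ψ (x c e))) :
    nm U (fun e => ∑ b ∈ U.erase e, f b * D b e) ≤ β * (c / 2) * Real.sqrt M := by
  have hc0 : 0 ≤ c / 2 := by have := hψ.c0; linarith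
  refine nm_le (mul_nonneg (mul_nonneg β0 hc0) (Real.sqrt_nonneg M)) ?_
  have hN : (β * (c / 2) * Real.sqrt M) ^ 2 = β ^ 2 * ((c / 2) ^ 2 * M) := by
    rw [mul_pow, mul_pow, Real.sq_sqrt hf.M0]
    ring
  rw [hN]
  -- pointwise
  have hpt : ∀ e ∈ U, (∑ b ∈ U.erase e, f b * D b e) ^ 2
      ≤ β ^ 2 * ∑ b ∈ U, x e b * (f b * ψ (x b e)) ^ 2 := by
    intro e he
    have h0 : 0 ≤ ∑ b ∈ U.erase e, f b * D b e :=
      Finset.sum_nonneg fun b _ => mul_nonneg (hf.f0 b) (D0 b e)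
    have h1 : ∑ b ∈ U.erase e, f b * D b e
        ≤ β * ∑ b ∈ U, x e b * ((1 : ℝ) * (f b * ψ (x b e))) := by
      rw [← Finset.add_sum_erase U (fun b => x e b * ((1 : ℝ) * (f b * ψ (x b e)))) he, h.xd e,
        zero_mul, zero_add, Finset.mul_sum]
      refine Finset.sum_le_sum fun b hb => ?_
      have hbU : b ∈ U := Finset.mem_of_mem_erase hb
      calc f b * D b e ≤ f b * (β * (x b e * ψ (x b e))) :=
            mul_le_mul_of_nonneg_left (hD b hbU e he) (hf.f0 b)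
        _ = β * (x e b * ((1 : ℝ) * (f b * ψ (x b e)))) := by rw [h.xs e b]; ring
    have h2 : (∑ b ∈ U.erase e, f b * D b e) ^ 2
        ≤ (β * ∑ b ∈ U, x e b * ((1 : ℝ) * (f b * ψ (x b e)))) ^ 2 :=
      pow_le_pow_left₀ h0 h1 2
    refine h2.trans ?_
    rw [mul_pow]
    refine mul_le_mul_of_nonneg_left ?_ (sq_nonneg β)
    have h3 := cs_sq U (q := fun b => x e b) (fun b _ => h.x0 e b) (fun _ => (1 : ℝ))
      (fun b => f b * ψ (x b e))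
    refine h3.trans ?_
    have h4 : ∑ b ∈ U, x e b * (1 : ℝ) ^ 2 ≤ 1 := by
      have h5 := h.row e he
      have h6 := h.κ0 e he
      have h7 : ∑ b ∈ U, x e b * (1 : ℝ) ^ 2 = ∑ b ∈ U, x e b :=
        Finset.sum_congr rfl fun b _ => by ring
      rw [h7]
      linarith
    have h8 : 0 ≤ ∑ b ∈ U, x e b * (f b * ψ (x b e)) ^ 2 :=
      Finset.sum_nonneg fun b _ => mul_nonneg (h.x0 e b) (sq_nonneg _)
    calc (∑ b ∈ U, x e b * (1 : ℝ) ^ 2) * ∑ b ∈ U, x e b * (f b * ψ (x b e)) ^ 2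
        ≤ 1 * ∑ b ∈ U, x e b * (f b * ψ (x b e)) ^ 2 := mul_le_mul_of_nonneg_right h4 h8
      _ = ∑ b ∈ U, x e b * (f b * ψ (x b e)) ^ 2 := one_mul _
  have hsum : ∑ e ∈ U, (∑ b ∈ U.erase e, f b * D b e) ^ 2
      ≤ ∑ e ∈ U, β ^ 2 * ∑ b ∈ U, x e b * (f b * ψ (x b e)) ^ 2 := Finset.sum_le_sum hpt
  refine hsum.trans ?_
  rw [← Finset.mul_sum, Finset.sum_comm]
  refine mul_le_mul_of_nonneg_left ?_ (sq_nonneg β)
  have hcol : ∀ b ∈ U, ∑ e ∈ U, x e b * (f b * ψ (x b e)) ^ 2 ≤ f b * (c / 2) ^ 2 := by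
    intro b hb
    have hκ0 := h.κ0 b hb
    have hκ1 := h.κ1 hb
    have hfκ := hf.fκ b hb
    have hf0 := hf.f0 b
    have hv : (1 - κ b) ∈ Icc (0 : ℝ) 1 := ⟨hκ1, by linarith⟩
    have h1 : ∀ e ∈ U, x e b * (f b * ψ (x b e)) ^ 2
        ≤ x b e * (f b ^ 2 * ψ (1 - κ b) ^ 2) := by
      intro e he
      have hx1 := h.le1 hb he
      have hx0 := h.x0 b e
      have hψ1 : ψ (x b e) ≤ ψ (1 - κ b) := hψ.mono _ _ hx0 hx1 hv.2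
      have hψ0 : 0 ≤ ψ (x b e) := hψ.p0 _ ⟨hx0, hx1.trans hv.2⟩
      rw [h.xs e b, mul_pow]
      refine mul_le_mul_of_nonneg_left ?_ hx0
      exact mul_le_mul_of_nonneg_left (pow_le_pow_left₀ hψ0 hψ1 2) (sq_nonneg _)
    have h2 : ∑ e ∈ U, x e b * (f b * ψ (x b e)) ^ 2
        ≤ (∑ e ∈ U, x b e) * (f b ^ 2 * ψ (1 - κ b) ^ 2) := by
      rw [Finset.sum_mul]
      exact Finset.sum_le_sum h1
    have h3 : (∑ e ∈ U, x b e) * (f b ^ 2 * ψ (1 - κ b) ^ 2)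
        ≤ (1 - κ b) * (f b ^ 2 * ψ (1 - κ b) ^ 2) :=
      mul_le_mul_of_nonneg_right (h.row b hb) (by positivity)
    have h4 : (1 - κ b) * (f b ^ 2 * ψ (1 - κ b) ^ 2)
        = f b * (f b * ((1 - κ b) * ψ (1 - κ b) ^ 2)) := by ring
    have h5 : f b * ((1 - κ b) * ψ (1 - κ b) ^ 2) ≤ κ b * ((1 - κ b) * ψ (1 - κ b) ^ 2) :=
      mul_le_mul_of_nonneg_right hfκ (mul_nonneg hκ1 (sq_nonneg _))
    have h6 : κ b * ((1 - κ b) * ψ (1 - κ b) ^ 2) ≤ (c / 2) ^ 2 := by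
      have h7 := hψ.hc (1 - κ b) hv
      have h8 : (1 - κ b) * (1 - (1 - κ b)) * ψ (1 - κ b) ^ 2
          = κ b * ((1 - κ b) * ψ (1 - κ b) ^ 2) := by ring
      rw [h8] at h7
      exact h7
    refine h2.trans (h3.trans ?_)
    rw [h4]
    exact mul_le_mul_of_nonneg_left (h5.trans h6) hf0
  calc ∑ b ∈ U, ∑ e ∈ U, x e b * (f b * ψ (x b e)) ^ 2
      ≤ ∑ b ∈ U, f b * (c / 2) ^ 2 := Finset.sum_le_sum hcol
    _ = (∑ b ∈ U, f b) * (c / 2) ^ 2 := by rw [Finset.sum_mul]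
    _ ≤ M * (c / 2) ^ 2 := mul_le_mul_of_nonneg_right hf.fM (sq_nonneg _)
    _ = (c / 2) ^ 2 * M := mul_comm _ _

end Pool.Agent.RX.EPS
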