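import Mathlib

/-! Squad EPS (MP_73ccd0_lc). -/

namespace Pool.Agent.RX.EPS

open Set Finset

set_option linter.unusedSectionVars false

variable {V : Type*} [Fintype V] [DecidableEq V]
variable {U : Finset V} {x : V → V → ℝ} {κ G f : V → ℝ} {T : V → V → ℝ}
variable {m lam g s M β c : ℝ} {ψ : ℝ → ℝ}

private theorem DiI_sq_deriv (u : ℝ) :
    HasDerivAt (fun v : ℝ => (max 0 v) ^ 2 / 2) (max 0 u) u := by
  rcases lt_trichotomy u 0 with h | h | h
  · rw [max_eq_left h.le]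
    have e : (fun v : ℝ => (max 0 v) ^ 2 / 2) =ᶠ[nhds u] fun _ => (0 : ℝ) := by
      filter_upwards [gt_mem_nhds h] with v hv
      rw [max_eq_left (le_of_lt hv)]
      norm_num
    exact (hasDerivAt_const u (0 : ℝ)).congr_of_eventuallyEq e
  · subst h
    rw [max_self, hasDerivAt_iff_isLittleO_nhds_zero]
    have hO : (fun h : ℝ => (max 0 (0 + h)) ^ 2 / 2 - (max 0 (0 : ℝ)) ^ 2 / 2 - h • (0 : ℝ))
        =O[nhds 0] fun h : ℝ => h ^ 2 := by
      apply Asymptotics.IsBigO.of_bound 1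
      refine Filter.Eventually.of_forall fun h => ?_
      rw [zero_add, max_self, smul_zero, Real.norm_eq_abs, Real.norm_eq_abs, one_mul]
      have h1 : (max 0 h) ^ 2 ≤ h ^ 2 := by
        rcases le_total 0 h with h0 | h0
        · rw [max_eq_right h0]
        · rw [max_eq_left h0]
          nlinarith [sq_nonneg h]
      have e : (max 0 h) ^ 2 / 2 - (0 : ℝ) ^ 2 / 2 - 0 = (max 0 h) ^ 2 / 2 := by ring
      rw [e, abs_of_nonneg (by positivity), abs_of_nonneg (by positivity)]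
      have := sq_nonneg (max 0 h)
      linarith
    exact hO.trans_isLittleO (Asymptotics.isLittleO_pow_id (by norm_num))
  · rw [max_eq_right h.le]
    have e : (fun v : ℝ => (max 0 v) ^ 2 / 2) =ᶠ[nhds u] fun v => v ^ 2 / 2 := by
      filter_upwards [lt_mem_nhds h] with v hv
      rw [max_eq_right (le_of_lt hv)]
    have hd : HasDerivAt (fun v : ℝ => v ^ 2 / 2) u u := by
      have h2 := (hasDerivAt_pow 2 u).div_const 2
      have e3 : ((2 : ℕ) : ℝ) * u ^ (2 - 1) / 2 = u := by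
        norm_num
      rw [e3] at h2
      exact h2
    exact hd.congr_of_eventuallyEq e

/-- The insertion integral. `1 - exp(-a) - exp(-b) ≤ 1 - 2 exp(-Z) ≤ Z - 17/25` (the function
`Z + 2 exp(-Z)` has its minimum `1 + log 2 > 42/25` at `log 2`), so the integrand is at most
`x m(r) max 0 (Z(r) - 17/25) ≤ x Z'(r) max 0 (Z(r) - 17/25)`, the derivative of
`x (max 0 (Z - 17/25))² / 2`. -/
theorem Di_int {s y : ℝ} {hc a b mm Z Z' : ℝ → ℝ} (s0 : 0 ≤ s) (y0 : 0 ≤ y)
    (chc : ContinuousOn hc (Icc 0 s)) (ca : ContinuousOn a (Icc 0 s))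
    (cb : ContinuousOn b (Icc 0 s)) (h0 : ∀ r ∈ Icc 0 s, 0 ≤ hc r)
    (hm : ∀ r ∈ Icc 0 s, hc r ≤ y * mm r) (haZ : ∀ r ∈ Icc 0 s, a r ≤ Z r)
    (hbZ : ∀ r ∈ Icc 0 s, b r ≤ Z r) (dZ : ∀ r ∈ Icc 0 s, HasDerivAt Z (Z' r) r)
    (cZ' : ContinuousOn Z' (Icc 0 s)) (m0 : ∀ r ∈ Icc 0 s, 0 ≤ mm r)
    (hZ' : ∀ r ∈ Icc 0 s, mm r ≤ Z' r) :
    ∫ r in (0 : ℝ)..s, hc r * max 0 (1 - Real.exp (-a r) - Real.exp (-b r))
      ≤ y * ((max 0 (Z s - 17 / 25)) ^ 2 / 2) := by
  set k : ℝ := 17 / 25 with hk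
  have hpt : ∀ r ∈ Icc (0 : ℝ) s, hc r * max 0 (1 - Real.exp (-a r) - Real.exp (-b r)) ≤
      y * (max 0 (Z r - k) * Z' r) := by
    intro r hr
    have h1 : 1 - Real.exp (-a r) - Real.exp (-b r) ≤ Z r - k := by
      have ea : Real.exp (-Z r) ≤ Real.exp (-a r) := Real.exp_le_exp.2 (by linarith [haZ r hr])
      have eb : Real.exp (-Z r) ≤ Real.exp (-b r) := Real.exp_le_exp.2 (by linarith [hbZ r hr])
      have e2 : Real.log 2 - Z r + 1 ≤ Real.exp (Real.log 2 - Z r) := Real.add_one_le_exp _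
      have e3 : Real.exp (Real.log 2 - Z r) = 2 * Real.exp (-Z r) := by
        rw [sub_eq_add_neg, Real.exp_add, Real.exp_log (by norm_num)]
      have e4 : (0.6931471803 : ℝ) < Real.log 2 := Real.log_two_gt_d9
      rw [e3] at e2
      rw [hk]
      norm_num at e4 ⊢
      linarith
    have h2 : max 0 (1 - Real.exp (-a r) - Real.exp (-b r)) ≤ max 0 (Z r - k) :=
      max_le_max le_rfl h1
    have hM : 0 ≤ max 0 (Z r - k) := le_max_left _ _
    calc hc r * max 0 (1 - Real.exp (-a r) - Real.exp (-b r))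
        ≤ hc r * max 0 (Z r - k) := mul_le_mul_of_nonneg_left h2 (h0 r hr)
      _ ≤ (y * mm r) * max 0 (Z r - k) := mul_le_mul_of_nonneg_right (hm r hr) hM
      _ = y * (max 0 (Z r - k) * mm r) := by ring
      _ ≤ y * (max 0 (Z r - k) * Z' r) :=
        mul_le_mul_of_nonneg_left (mul_le_mul_of_nonneg_left (hZ' r hr) hM) y0
  have cZ : ContinuousOn Z (Icc 0 s) := fun r hr => (dZ r hr).continuousAt.continuousWithinAt
  have c1 : ContinuousOn (fun r => hc r * max 0 (1 - Real.exp (-a r) - Real.exp (-b r)))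
      (Icc 0 s) := by
    refine chc.mul (continuousOn_const.sup' ?_)
    exact (continuousOn_const.sub (Real.continuous_exp.comp_continuousOn ca.neg)).sub
      (Real.continuous_exp.comp_continuousOn cb.neg)
  have c2 : ContinuousOn (fun r => max 0 (Z r - k) * Z' r) (Icc 0 s) :=
    (continuousOn_const.sup' (cZ.sub continuousOn_const)).mul cZ'
  have hI : ∫ r in (0 : ℝ)..s, max 0 (Z r - k) * Z' r =
      (max 0 (Z s - k)) ^ 2 / 2 - (max 0 (Z 0 - k)) ^ 2 / 2 := by
    apply intervalIntegral.integral_eq_sub_of_hasDerivAt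
      (f := fun r => (max 0 (Z r - k)) ^ 2 / 2)
    · intro r hr
      rw [uIcc_of_le s0] at hr
      have h1 := (DiI_sq_deriv (Z r - k)).comp r ((dZ r hr).sub_const k)
      exact h1
    · exact (c2.mono (by rw [uIcc_of_le s0])).intervalIntegrable
  calc ∫ r in (0 : ℝ)..s, hc r * max 0 (1 - Real.exp (-a r) - Real.exp (-b r))
      ≤ ∫ r in (0 : ℝ)..s, y * (max 0 (Z r - k) * Z' r) := by
        apply intervalIntegral.integral_mono_on s0 _ _ hpt
        · exact (c1.mono (by rw [uIcc_of_le s0])).intervalIntegrable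
        · exact ((continuousOn_const.mul c2).mono (by rw [uIcc_of_le s0])).intervalIntegrable
    _ = y * ((max 0 (Z s - k)) ^ 2 / 2 - (max 0 (Z 0 - k)) ^ 2 / 2) := by
        rw [intervalIntegral.integral_const_mul, hI]
    _ ≤ y * ((max 0 (Z s - k)) ^ 2 / 2) := by
        apply mul_le_mul_of_nonneg_left _ y0
        have := sq_nonneg (max 0 (Z 0 - k))
        linarith

end Pool.Agent.RX.EPS
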