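import Pool.Agent.RX.EPS.Defs

/-! Squad EPS (MP_73ccd0_lc). -/

namespace Pool.Agent.RX.EPS

open Set Finset

set_option linter.unusedSectionVars false

variable {V : Type*} [Fintype V] [DecidableEq V]
variable {U : Finset V} {x : V → V → ℝ} {κ G f : V → ℝ} {T : V → V → ℝ}
variable {m lam g s M β c : ℝ} {ψ : ℝ → ℝ}

/-- Summation of the insertion terms: `(Σ f_d x_dz Φ)² ≤ (Σ f_d) (Σ f_d x_dz² Φ²)` (Cauchy-Schwarz
with the weights `f_d`), `f_d ≤ κ_d ≤ 1 - x_dz`, so `f_d x_dz² Φ² ≤ x_dz (x_dz (1 - x_dz) Φ²) ≤ x_dz δ²`,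
and `Σ_d x_dz ≤ 1`. -/
theorem Di_sum (h : Wx U x κ) (hf : Fw U κ f M) {z : V} (hz : z ∈ U) {d : V → ℝ} {Φ : ℝ → ℝ}
    {δ : ℝ} (δ0 : 0 ≤ δ) (hd : ∀ e ∈ U.erase z, d e ≤ x e z * Φ (x e z))
    (Φ0 : ∀ v ∈ Icc (0 : ℝ) 1, 0 ≤ Φ v)
    (hΦ : ∀ v ∈ Icc (0 : ℝ) 1, v * (1 - v) * Φ v ^ 2 ≤ δ ^ 2) :
    ∑ e ∈ U.erase z, f e * d e ≤ δ * Real.sqrt M := by
  have hzU : ∀ e ∈ U.erase z, e ∈ U := fun e he => Finset.mem_of_mem_erase he
  have hx0 : ∀ e, 0 ≤ x e z := fun e => h.x0 e z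
  have hxκ : ∀ e ∈ U.erase z, κ e ≤ 1 - x e z := by
    intro e he
    have := h.le1 (hzU e he) hz
    linarith
  have hx1 : ∀ e ∈ U.erase z, x e z ≤ 1 := by
    intro e he
    have h1 := h.le1 (hzU e he) hz
    have h2 := h.κ0 e (hzU e he)
    linarith
  have hmem : ∀ e ∈ U.erase z, x e z ∈ Icc (0 : ℝ) 1 := fun e he => ⟨hx0 e, hx1 e he⟩
  have h1 : ∑ e ∈ U.erase z, f e * d e ≤ ∑ e ∈ U.erase z, f e * (1 * (x e z * Φ (x e z))) :=
    Finset.sum_le_sum fun e he => by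
      rw [one_mul]
      exact mul_le_mul_of_nonneg_left (hd e he) (hf.f0 e)
  have h2 := cs_sq (U.erase z) (q := f) (fun e _ => hf.f0 e) (fun _ => (1 : ℝ))
    (fun e => x e z * Φ (x e z))
  have h3 : ∑ e ∈ U.erase z, f e * (1 : ℝ) ^ 2 ≤ M := by
    calc ∑ e ∈ U.erase z, f e * (1 : ℝ) ^ 2 = ∑ e ∈ U.erase z, f e :=
          Finset.sum_congr rfl fun e _ => by ring
      _ ≤ ∑ e ∈ U, f e :=
          Finset.sum_le_sum_of_subset_of_nonneg (Finset.erase_subset z U) fun e _ _ => hf.f0 e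
      _ ≤ M := hf.fM
  have h4 : ∑ e ∈ U.erase z, f e * (x e z * Φ (x e z)) ^ 2 ≤ δ ^ 2 := by
    calc ∑ e ∈ U.erase z, f e * (x e z * Φ (x e z)) ^ 2
        ≤ ∑ e ∈ U.erase z, δ ^ 2 * x z e := by
          refine Finset.sum_le_sum fun e he => ?_
          have a1 : f e ≤ 1 - x e z := (hf.fκ e (hzU e he)).trans (hxκ e he)
          have a2 := hΦ _ (hmem e he)
          have a3 : f e * (x e z * Φ (x e z)) ^ 2 ≤ (1 - x e z) * (x e z * Φ (x e z)) ^ 2 :=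
            mul_le_mul_of_nonneg_right a1 (sq_nonneg _)
          have a4 : x e z * (x e z * (1 - x e z) * Φ (x e z) ^ 2) ≤ x e z * δ ^ 2 :=
            mul_le_mul_of_nonneg_left a2 (hx0 e)
          rw [h.xs z e]
          calc f e * (x e z * Φ (x e z)) ^ 2 ≤ (1 - x e z) * (x e z * Φ (x e z)) ^ 2 := a3
            _ = x e z * (x e z * (1 - x e z) * Φ (x e z) ^ 2) := by ring
            _ ≤ x e z * δ ^ 2 := a4
            _ = δ ^ 2 * x e z := by ring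
      _ = δ ^ 2 * ∑ e ∈ U.erase z, x z e := by rw [Finset.mul_sum]
      _ ≤ δ ^ 2 * 1 := by
          refine mul_le_mul_of_nonneg_left ?_ (sq_nonneg _)
          have b1 := h.rowS (Finset.erase_subset z U) hz
          have b2 := h.κ0 z hz
          linarith
      _ = δ ^ 2 := mul_one _
  have h5 : (∑ e ∈ U.erase z, f e * (1 * (x e z * Φ (x e z)))) ^ 2 ≤ (δ * Real.sqrt M) ^ 2 := by
    calc (∑ e ∈ U.erase z, f e * (1 * (x e z * Φ (x e z)))) ^ 2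
        ≤ (∑ e ∈ U.erase z, f e * (1 : ℝ) ^ 2) *
          ∑ e ∈ U.erase z, f e * (x e z * Φ (x e z)) ^ 2 := h2
      _ ≤ M * δ ^ 2 := mul_le_mul h3 h4
          (Finset.sum_nonneg fun e _ => mul_nonneg (hf.f0 e) (sq_nonneg _)) hf.M0
      _ = (δ * Real.sqrt M) ^ 2 := by
          rw [mul_pow, Real.sq_sqrt hf.M0]
          ring
  exact h1.trans ((le_abs_self _).trans
    (abs_le_of_sq_le_sq h5 (mul_nonneg δ0 (Real.sqrt_nonneg M))))

end Pool.Agent.RX.EPS
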