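import Mathlib

/-! Squad EPS (MP_73ccd0_lc). -/

namespace Pool.Agent.RX.EPS

open Set Finset

set_option linter.unusedSectionVars false

variable {V : Type*} [Fintype V] [DecidableEq V]
variable {U : Finset V} {x : V → V → ℝ} {κ G f : V → ℝ} {T : V → V → ℝ}
variable {m lam g s M β c : ℝ} {ψ : ℝ → ℝ}

private theorem Jens_tan {S : Finset V} {f L : V → ℝ} {B l : ℝ} (f0 : ∀ d ∈ S, 0 ≤ f d)
    (l0 : 0 ≤ l) (hM : ∑ d ∈ S, f d ≤ B) (hL : ∑ d ∈ S, f d * L d ≤ B * l) :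
    ∑ d ∈ S, f d * (1 - Real.exp (-L d)) ≤ B * (1 - Real.exp (-l)) := by
  have h0 : 0 ≤ 1 - Real.exp (-l) - l * Real.exp (-l) := by
    have h1 := Real.add_one_le_exp l
    have h2 : Real.exp l * Real.exp (-l) = 1 := by
      rw [← Real.exp_add, add_neg_cancel, Real.exp_zero]
    have h3 : (l + 1) * Real.exp (-l) ≤ Real.exp l * Real.exp (-l) :=
      mul_le_mul_of_nonneg_right h1 (Real.exp_pos _).le
    linarith
  have h1 : ∀ d ∈ S, f d * (1 - Real.exp (-L d)) ≤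
      f d * (1 - Real.exp (-l) - l * Real.exp (-l)) + Real.exp (-l) * (f d * L d) := by
    intro d hd
    have h2 := Real.add_one_le_exp (-(L d - l))
    have h3 : Real.exp (-L d) = Real.exp (-l) * Real.exp (-(L d - l)) := by
      rw [← Real.exp_add]
      congr 1
      ring
    have h4 : Real.exp (-l) * (-(L d - l) + 1) ≤ Real.exp (-L d) := by
      rw [h3]
      exact mul_le_mul_of_nonneg_left h2 (Real.exp_pos _).le
    have h5 : 1 - Real.exp (-L d) ≤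
        (1 - Real.exp (-l) - l * Real.exp (-l)) + Real.exp (-l) * L d := by linarith
    calc f d * (1 - Real.exp (-L d))
        ≤ f d * ((1 - Real.exp (-l) - l * Real.exp (-l)) + Real.exp (-l) * L d) :=
          mul_le_mul_of_nonneg_left h5 (f0 d hd)
      _ = _ := by ring
  calc ∑ d ∈ S, f d * (1 - Real.exp (-L d))
      ≤ ∑ d ∈ S, (f d * (1 - Real.exp (-l) - l * Real.exp (-l)) +
        Real.exp (-l) * (f d * L d)) := Finset.sum_le_sum h1
    _ = (∑ d ∈ S, f d) * (1 - Real.exp (-l) - l * Real.exp (-l)) +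
        Real.exp (-l) * ∑ d ∈ S, f d * L d := by
        rw [Finset.sum_add_distrib, Finset.sum_mul, Finset.mul_sum]
    _ ≤ B * (1 - Real.exp (-l) - l * Real.exp (-l)) + Real.exp (-l) * (B * l) :=
        add_le_add (mul_le_mul_of_nonneg_right hM h0)
          (mul_le_mul_of_nonneg_left hL (Real.exp_pos _).le)
    _ = B * (1 - Real.exp (-l)) := by ring

/-- Jensen and the mass factor. `1 - exp(-L)` is concave: for `F = Σ f > 0` (otherwise trivial)
`Σ f (1 - exp(-L)) ≤ F (1 - exp(-(Σ f L) / F)) ≤ (1-w) (1 - exp(-σ / √(1-w)))` (the function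
`F ↦ F (1 - exp(-A / F))` is nondecreasing, also in `A`); with `q = √(1-w) ≤ 1`:
`q (1 - exp(-σ/q)) ≤ 1 - exp(-σ)` (same monotonicity) and `q ≤ 1 - w/2`.
(Tangent line version: for every `l ≥ 0`, `1 - exp(-L) ≤ 1 - exp(-l) + exp(-l) (L - l)`; take
`l = σ / √(1-w)`, then `Σ f (1 - exp(-L)) ≤ (1-w) (1 - exp(-l) - exp(-l) l) + exp(-l) √(1-w) σ
= (1-w)(1 - exp(-l))`, since `1 - exp(-l) - l exp(-l) ≥ 0`.) -/
theorem jens1 {S : Finset V} {f L : V → ℝ} {w σ : ℝ} (f0 : ∀ d ∈ S, 0 ≤ f d) (w0 : 0 ≤ w)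
    (w1 : w ≤ 1) (σ0 : 0 ≤ σ) (L0 : ∀ d ∈ S, 0 ≤ L d) (hM : ∑ d ∈ S, f d ≤ 1 - w)
    (hL : ∑ d ∈ S, f d * L d ≤ σ * Real.sqrt (1 - w)) :
    ∑ d ∈ S, f d * (1 - Real.exp (-L d)) ≤ (1 - w / 2) * (1 - Real.exp (-σ)) := by
  rcases w1.eq_or_lt with hw | hw
  · have hz : ∀ d ∈ S, f d = 0 := by
      have h1 : ∑ d ∈ S, f d ≤ 0 := by rw [hw] at hM; linarith
      have h2 : ∑ d ∈ S, f d = 0 := le_antisymm h1 (Finset.sum_nonneg f0)
      exact (Finset.sum_eq_zero_iff_of_nonneg f0).1 h2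
    have h3 : ∑ d ∈ S, f d * (1 - Real.exp (-L d)) = 0 :=
      Finset.sum_eq_zero fun d hd => by rw [hz d hd, zero_mul]
    rw [h3, hw]
    have h4 : Real.exp (-σ) ≤ 1 := Real.exp_le_one_iff.2 (by linarith)
    have : 0 ≤ 1 - Real.exp (-σ) := by linarith
    positivity
  set q : ℝ := Real.sqrt (1 - w) with hq
  have hq2 : q ^ 2 = 1 - w := Real.sq_sqrt (by linarith)
  have hq0 : 0 < q := Real.sqrt_pos.2 (by linarith)
  have hq1 : q ≤ 1 := by nlinarith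
  set l : ℝ := σ / q with hl
  have hl0 : 0 ≤ l := by rw [hl]; positivity
  have hlq : σ = l * q := by rw [hl]; field_simp
  have h1 : ∑ d ∈ S, f d * (1 - Real.exp (-L d)) ≤ (1 - w) * (1 - Real.exp (-l)) :=
    Jens_tan f0 hl0 hM (by
      rw [hlq] at hL
      calc ∑ d ∈ S, f d * L d ≤ l * q * q := hL
        _ = (1 - w) * l := by rw [← hq2]; ring)
  have h2 : Real.exp (-σ) ≤ q * Real.exp (-l) + (1 - q) := by
    have h3 := convexOn_exp.2 (Set.mem_univ (-l)) (Set.mem_univ (0 : ℝ)) hq0.le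
      (show (0 : ℝ) ≤ 1 - q by linarith) (by ring)
    simp only [smul_eq_mul, mul_zero, add_zero, Real.exp_zero, mul_one] at h3
    have h4 : -σ = q * -l := by rw [hlq]; ring
    rw [h4]
    exact h3
  have h3 : q * (1 - Real.exp (-l)) ≤ 1 - Real.exp (-σ) := by linarith
  have h4 : q ≤ 1 - w / 2 := by nlinarith [sq_nonneg w]
  have h5 : 0 ≤ 1 - Real.exp (-σ) := by
    have : Real.exp (-σ) ≤ 1 := Real.exp_le_one_iff.2 (by linarith)
    linarith
  calc ∑ d ∈ S, f d * (1 - Real.exp (-L d)) ≤ (1 - w) * (1 - Real.exp (-l)) := h1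
    _ = q * (q * (1 - Real.exp (-l))) := by rw [← hq2]; ring
    _ ≤ q * (1 - Real.exp (-σ)) := mul_le_mul_of_nonneg_left h3 hq0.le
    _ ≤ (1 - w / 2) * (1 - Real.exp (-σ)) := mul_le_mul_of_nonneg_right h4 h5

/-- The same with total mass 2 (`1 / √2 ≤ 7072/10000`). -/
theorem jens2 {S : Finset V} {f L : V → ℝ} {σ : ℝ} (f0 : ∀ d ∈ S, 0 ≤ f d)
    (σ0 : 0 ≤ σ) (L0 : ∀ d ∈ S, 0 ≤ L d) (hM : ∑ d ∈ S, f d ≤ 2)
    (hL : ∑ d ∈ S, f d * L d ≤ σ * Real.sqrt 2) :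
    ∑ d ∈ S, f d * (1 - Real.exp (-L d)) ≤ 2 * (1 - Real.exp (-(7072 / 10000 * σ))) := by
  have hs2 : Real.sqrt 2 ^ 2 = 2 := Real.sq_sqrt (by norm_num)
  have hs0 : 0 < Real.sqrt 2 := Real.sqrt_pos.2 (by norm_num)
  set l : ℝ := σ / Real.sqrt 2 with hl
  have hl0 : 0 ≤ l := by rw [hl]; positivity
  have hlq : σ = l * Real.sqrt 2 := by rw [hl]; field_simp
  have h1 : ∑ d ∈ S, f d * (1 - Real.exp (-L d)) ≤ 2 * (1 - Real.exp (-l)) :=
    Jens_tan f0 hl0 hM (by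
      rw [hlq] at hL
      calc ∑ d ∈ S, f d * L d ≤ l * Real.sqrt 2 * Real.sqrt 2 := hL
        _ = 2 * l := by rw [mul_assoc, ← pow_two, hs2]; ring)
  refine h1.trans ?_
  have h2 : l ≤ 7072 / 10000 * σ := by
    have h3 : (10000 : ℝ) / 7072 ≤ Real.sqrt 2 := by
      apply Real.le_sqrt_of_sq_le
      norm_num
    rw [hlq]
    have h4 : 1 ≤ 7072 / 10000 * Real.sqrt 2 := by linarith
    nlinarith
  have h5 : Real.exp (-(7072 / 10000 * σ)) ≤ Real.exp (-l) := Real.exp_le_exp.2 (by linarith)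
  linarith

end Pool.Agent.RX.EPS
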