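import Pool.Agent.RX.EPS.Defs

/-! Squad EPS (MP_73ccd0_lc). -/

namespace Pool.Agent.RX.EPS

open Set Finset

set_option linter.unusedSectionVars false

variable {V : Type*} [Fintype V] [DecidableEq V]
variable {U : Finset V} {x : V → V → ℝ} {κ G f : V → ℝ} {T : V → V → ℝ}
variable {m lam g s M β c : ℝ} {ψ : ℝ → ℝ}

private theorem le_of_sq_le_sq_aux {a b : ℝ} (h : a ^ 2 ≤ b ^ 2) (hb : 0 ≤ b) : a ≤ b := by
  nlinarith

/-- Norm of a kernel `A u v ≤ m x_uv α_uv` with `√(1-κ_u) √(1-κ_v) α_uv ≤ lA`. If `1 - κ_u = 0` or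
`1 - κ_v = 0` then `x_uv = 0`. Otherwise `x_uv α_uv ≤ lA x_uv / (√p_u √p_v)` and Cauchy-Schwarz:
`Σ x_uv (w_u / √p_u) (z_v / √p_v) ≤ √(Σ x_uv w_u² / p_u) √(Σ x_uv z_v² / p_v) ≤ ‖w‖ ‖z‖`. -/
theorem op_A (h : Wx U x κ) {A α : V → V → ℝ} {lA : ℝ} (m0 : 0 ≤ m) (l0 : 0 ≤ lA)
    (A0 : ∀ u v, 0 ≤ A u v) (α0 : ∀ u v, 0 ≤ α u v)
    (le : ∀ u ∈ U, ∀ v ∈ U, A u v ≤ m * (x u v * α u v))
    (hα : ∀ u ∈ U, ∀ v ∈ U, Real.sqrt (1 - κ u) * Real.sqrt (1 - κ v) * α u v ≤ lA) :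
    Op U A (m * lA) := by
  intro w u hw hu
  set a : V → ℝ := fun e => w e / Real.sqrt (1 - κ e) with ha
  set c : V → ℝ := fun b => u b / Real.sqrt (1 - κ b) with hc
  have xz : ∀ e ∈ U, ∀ b ∈ U, Real.sqrt (1 - κ e) = 0 → x e b = 0 := by
    intro e he b hb h0
    have h1 : 1 - κ e = 0 := (Real.sqrt_eq_zero (h.κ1 he)).1 h0
    have h2 := h.le1 he hb
    have h3 := h.x0 e b
    linarith
  have key : ∀ e ∈ U, ∀ b ∈ U, w e * (A e b * u b) ≤ m * lA * (x e b * (a e * c b)) := by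
    intro e he b hb
    have hwe := hw e he
    have hub := hu b hb
    have h1 : w e * (A e b * u b) ≤ w e * (m * (x e b * α e b) * u b) :=
      mul_le_mul_of_nonneg_left (mul_le_mul_of_nonneg_right (le e he b hb) hub) hwe
    refine h1.trans ?_
    by_cases hx : x e b = 0
    · rw [hx]
      simp
    · have p1 : Real.sqrt (1 - κ e) ≠ 0 := fun h0 => hx (xz e he b hb h0)
      have p2 : Real.sqrt (1 - κ b) ≠ 0 := fun h0 => hx (by
        rw [h.xs e b]
        exact xz b hb e he h0)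
      have q1 : 0 < Real.sqrt (1 - κ e) := lt_of_le_of_ne (Real.sqrt_nonneg _) (Ne.symm p1)
      have q2 : 0 < Real.sqrt (1 - κ b) := lt_of_le_of_ne (Real.sqrt_nonneg _) (Ne.symm p2)
      have h2 := hα e he b hb
      have ae : w e = a e * Real.sqrt (1 - κ e) := by
        rw [ha]
        field_simp
      have cb : u b = c b * Real.sqrt (1 - κ b) := by
        rw [hc]
        field_simp
      have a0 : 0 ≤ a e := div_nonneg hwe q1.le
      have c0 : 0 ≤ c b := div_nonneg hub q2.le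
      have h3 : w e * (m * (x e b * α e b) * u b)
          = m * (x e b * (a e * c b)) *
            (Real.sqrt (1 - κ e) * Real.sqrt (1 - κ b) * α e b) := by
        rw [ae, cb]
        ring
      rw [h3]
      have h4 : 0 ≤ m * (x e b * (a e * c b)) :=
        mul_nonneg m0 (mul_nonneg (h.x0 e b) (mul_nonneg a0 c0))
      have h5 := mul_le_mul_of_nonneg_left h2 h4
      linarith
  have h1 : ∑ e ∈ U, w e * ∑ b ∈ U, A e b * u b
      ≤ m * lA * ∑ e ∈ U, ∑ b ∈ U, x e b * (a e * c b) := by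
    rw [Finset.mul_sum]
    refine Finset.sum_le_sum fun e he => ?_
    rw [Finset.mul_sum, Finset.mul_sum]
    exact Finset.sum_le_sum fun b hb => key e he b hb
  have hle : ∀ z : V → ℝ, ∀ e ∈ U,
      (z e / Real.sqrt (1 - κ e)) ^ 2 * (1 - κ e) ≤ z e ^ 2 := by
    intro z e he
    by_cases p1 : Real.sqrt (1 - κ e) = 0
    · rw [p1, div_zero]
      simp only [ne_eq, OfNat.ofNat_ne_zero, not_false_eq_true, zero_pow, zero_mul]
      exact sq_nonneg _
    · have h2 := Real.sq_sqrt (h.κ1 he)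
      rw [div_pow]
      have h3 : Real.sqrt (1 - κ e) ^ 2 ≠ 0 := pow_ne_zero 2 p1
      calc z e ^ 2 / Real.sqrt (1 - κ e) ^ 2 * (1 - κ e)
          = z e ^ 2 / Real.sqrt (1 - κ e) ^ 2 * Real.sqrt (1 - κ e) ^ 2 := by rw [h2]
        _ = z e ^ 2 := div_mul_cancel₀ _ h3
        _ ≤ z e ^ 2 := le_refl _
  have S2 : (∑ e ∈ U, ∑ b ∈ U, x e b * (a e * c b)) ^ 2 ≤ (nm U w * nm U u) ^ 2 := by
    have hcs := cs_sq (V := V × V) (U ×ˢ U) (q := fun z => x z.1 z.2)
      (fun z _ => h.x0 z.1 z.2) (fun z => a z.1) (fun z => c z.2)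
    rw [Finset.sum_product, Finset.sum_product, Finset.sum_product] at hcs
    refine hcs.trans ?_
    rw [mul_pow, nm_sq, nm_sq]
    have g1 : ∑ e ∈ U, ∑ b ∈ U, x e b * a e ^ 2 ≤ ∑ e ∈ U, w e ^ 2 := by
      refine Finset.sum_le_sum fun e he => ?_
      rw [← Finset.sum_mul]
      have h2 := mul_le_mul_of_nonneg_right (h.row e he) (sq_nonneg (a e))
      refine h2.trans ?_
      have h3 := hle w e he
      rw [ha]
      linarith
    have g2 : ∑ e ∈ U, ∑ b ∈ U, x e b * c b ^ 2 ≤ ∑ e ∈ U, u e ^ 2 := by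
      rw [Finset.sum_comm]
      refine Finset.sum_le_sum fun b hb => ?_
      rw [← Finset.sum_mul]
      have h4 : ∑ e ∈ U, x e b ≤ 1 - κ b := by
        have h5 : ∑ e ∈ U, x e b = ∑ e ∈ U, x b e :=
          Finset.sum_congr rfl fun e _ => h.xs e b
        rw [h5]
        exact h.row b hb
      have h2 := mul_le_mul_of_nonneg_right h4 (sq_nonneg (c b))
      refine h2.trans ?_
      have h3 := hle u b hb
      rw [hc]
      linarith
    refine mul_le_mul g1 g2 ?_ (Finset.sum_nonneg fun e _ => sq_nonneg _)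
    exact Finset.sum_nonneg fun e _ => Finset.sum_nonneg fun b _ =>
      mul_nonneg (h.x0 e b) (sq_nonneg _)
  have S1 : ∑ e ∈ U, ∑ b ∈ U, x e b * (a e * c b) ≤ nm U w * nm U u :=
    le_of_sq_le_sq_aux S2 (mul_nonneg (nm_nonneg U w) (nm_nonneg U u))
  exact h1.trans (mul_le_mul_of_nonneg_left S1 (mul_nonneg m0 l0))

end Pool.Agent.RX.EPS
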