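import Pool.Agent.RX.EPS.Defs

/-! Squad EPS (MP_73ccd0_lc). -/

namespace Pool.Agent.RX.EPS

open Set Finset

set_option linter.unusedSectionVars false

variable {V : Type*} [Fintype V] [DecidableEq V]
variable {U : Finset V} {x : V → V → ℝ} {κ G f : V → ℝ} {T : V → V → ℝ}
variable {m lam g s M β c : ℝ} {ψ : ℝ → ℝ}

private lemma le_of_sq_le_sq_opB {x y : ℝ} (h : x ^ 2 ≤ y ^ 2) (hy : 0 ≤ y) : x ≤ y := by
  by_contra hc
  push Not at hc
  nlinarith [sq_nonneg (x - y)]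

/-- Norm of a kernel `B u v ≤ m x_uv b` (Cauchy-Schwarz, rows of `x` at most 1). -/
theorem op_B (h : Wx U x κ) {B : V → V → ℝ} {b : ℝ} (m0 : 0 ≤ m) (b0 : 0 ≤ b)
    (le : ∀ u ∈ U, ∀ v ∈ U, B u v ≤ m * (x u v * b)) : Op U B (m * b) := by
  intro w u hw hu
  have row1 : ∀ e ∈ U, ∑ v ∈ U, x e v ≤ 1 := fun e he => by
    have := h.row e he
    have := h.κ0 e he
    linarith
  have hS : ∑ e ∈ U, w e * ∑ b' ∈ U, B e b' * u b'
      ≤ (m * b) * ∑ p ∈ U ×ˢ U, x p.1 p.2 * (w p.1 * u p.2) := by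
    rw [Finset.sum_product, Finset.mul_sum]
    refine Finset.sum_le_sum fun e he => ?_
    rw [Finset.mul_sum, Finset.mul_sum]
    refine Finset.sum_le_sum fun v hv => ?_
    have h1 := le e he v hv
    have h2 : 0 ≤ w e * u v := mul_nonneg (hw e he) (hu v hv)
    calc w e * (B e v * u v) = B e v * (w e * u v) := by ring
      _ ≤ m * (x e v * b) * (w e * u v) := mul_le_mul_of_nonneg_right h1 h2
      _ = m * b * (x e v * (w e * u v)) := by ring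
  have hcs := cs_sq (U ×ˢ U) (q := fun p => x p.1 p.2) (fun p _ => h.x0 _ _)
    (fun p => w p.1) (fun p => u p.2)
  have hA : ∑ p ∈ U ×ˢ U, x p.1 p.2 * w p.1 ^ 2 ≤ nm U w ^ 2 := by
    rw [nm_sq, Finset.sum_product]
    refine Finset.sum_le_sum fun e he => ?_
    simp only
    rw [← Finset.sum_mul]
    nlinarith [row1 e he, sq_nonneg (w e)]
  have hB : ∑ p ∈ U ×ˢ U, x p.1 p.2 * u p.2 ^ 2 ≤ nm U u ^ 2 := by
    rw [nm_sq, Finset.sum_product_right]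
    refine Finset.sum_le_sum fun e he => ?_
    simp only
    rw [← Finset.sum_mul]
    have : ∑ i ∈ U, x i e = ∑ i ∈ U, x e i := Finset.sum_congr rfl fun i _ => h.xs i e
    rw [this]
    nlinarith [row1 e he, sq_nonneg (u e)]
  have hA0 : 0 ≤ ∑ p ∈ U ×ˢ U, x p.1 p.2 * w p.1 ^ 2 :=
    Finset.sum_nonneg fun p _ => mul_nonneg (h.x0 _ _) (sq_nonneg _)
  have hB0 : 0 ≤ ∑ p ∈ U ×ˢ U, x p.1 p.2 * u p.2 ^ 2 :=
    Finset.sum_nonneg fun p _ => mul_nonneg (h.x0 _ _) (sq_nonneg _)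
  have hP : (∑ p ∈ U ×ˢ U, x p.1 p.2 * (w p.1 * u p.2)) ^ 2 ≤ (nm U w * nm U u) ^ 2 := by
    rw [mul_pow]
    exact hcs.trans (mul_le_mul hA hB hB0 (sq_nonneg _))
  have hP' : ∑ p ∈ U ×ˢ U, x p.1 p.2 * (w p.1 * u p.2) ≤ nm U w * nm U u :=
    le_of_sq_le_sq_opB hP (mul_nonneg (nm_nonneg _ _) (nm_nonneg _ _))
  exact hS.trans (mul_le_mul_of_nonneg_left hP' (mul_nonneg m0 b0))

/-- The tested kernel: `(Σ_d f_d x_dz)² ≤ Σ_d x_dz f_d²`, `Σ_z x_dz ≤ 1 - κ_d`,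
`f_d² (1 - κ_d) ≤ f_d κ_d (1 - κ_d) ≤ f_d / 4`. -/
theorem fB_norm (h : Wx U x κ) (hf : Fw U κ f M) {B : V → V → ℝ} {b : ℝ} (m0 : 0 ≤ m)
    (b0 : 0 ≤ b) (B0 : ∀ u v, 0 ≤ B u v) (le : ∀ u ∈ U, ∀ v ∈ U, B u v ≤ m * (x u v * b)) :
    nm U (fun z => ∑ d ∈ U, f d * B d z) ≤ m * (b / 2) * Real.sqrt M := by
  have hM0 := hf.M0
  have hN : 0 ≤ m * (b / 2) * Real.sqrt M := by positivity
  refine nm_le hN ?_
  have e1 : (m * (b / 2) * Real.sqrt M) ^ 2 = (m * b) ^ 2 * (M / 4) := by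
    rw [mul_pow, Real.sq_sqrt hM0]; ring
  rw [e1]
  have step1 : ∀ z ∈ U, (∑ d ∈ U, f d * B d z) ^ 2 ≤ (m * b) ^ 2 * ∑ d ∈ U, x d z * f d ^ 2 := by
    intro z hz
    have a0 : 0 ≤ ∑ d ∈ U, f d * B d z :=
      Finset.sum_nonneg fun d _ => mul_nonneg (hf.f0 d) (B0 d z)
    have a1 : ∑ d ∈ U, f d * B d z ≤ (m * b) * ∑ d ∈ U, x d z * (1 * f d) := by
      rw [Finset.mul_sum]
      refine Finset.sum_le_sum fun d hd => ?_
      calc f d * B d z ≤ f d * (m * (x d z * b)) :=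
            mul_le_mul_of_nonneg_left (le d hd z hz) (hf.f0 d)
        _ = m * b * (x d z * (1 * f d)) := by ring
    have a2 := cs_sq U (q := fun d => x d z) (fun d _ => h.x0 d z) (fun _ => 1) f
    have a3 : ∑ d ∈ U, x d z * (1 : ℝ) ^ 2 ≤ 1 := by
      have : ∑ d ∈ U, x d z * (1 : ℝ) ^ 2 = ∑ d ∈ U, x z d :=
        Finset.sum_congr rfl fun d _ => by rw [h.xs d z]; ring
      rw [this]
      have := h.row z hz
      have := h.κ0 z hz
      linarith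
    have a4 : 0 ≤ ∑ d ∈ U, x d z * f d ^ 2 :=
      Finset.sum_nonneg fun d _ => mul_nonneg (h.x0 d z) (sq_nonneg _)
    calc (∑ d ∈ U, f d * B d z) ^ 2 ≤ ((m * b) * ∑ d ∈ U, x d z * (1 * f d)) ^ 2 :=
          pow_le_pow_left₀ a0 a1 2
      _ = (m * b) ^ 2 * (∑ d ∈ U, x d z * (1 * f d)) ^ 2 := by ring
      _ ≤ (m * b) ^ 2 * ∑ d ∈ U, x d z * f d ^ 2 := by
          refine mul_le_mul_of_nonneg_left ?_ (sq_nonneg _)
          refine a2.trans ?_
          calc (∑ d ∈ U, x d z * (1 : ℝ) ^ 2) * ∑ d ∈ U, x d z * f d ^ 2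
              ≤ 1 * ∑ d ∈ U, x d z * f d ^ 2 := mul_le_mul_of_nonneg_right a3 a4
            _ = _ := one_mul _
  calc ∑ z ∈ U, (∑ d ∈ U, f d * B d z) ^ 2
      ≤ ∑ z ∈ U, (m * b) ^ 2 * ∑ d ∈ U, x d z * f d ^ 2 := Finset.sum_le_sum step1
    _ = (m * b) ^ 2 * ∑ z ∈ U, ∑ d ∈ U, x d z * f d ^ 2 := by rw [Finset.mul_sum]
    _ ≤ (m * b) ^ 2 * (M / 4) := by
        refine mul_le_mul_of_nonneg_left ?_ (sq_nonneg _)
        rw [Finset.sum_comm]
        have b1 : ∀ d ∈ U, ∑ z ∈ U, x d z * f d ^ 2 ≤ f d / 4 := by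
          intro d hd
          rw [← Finset.sum_mul]
          have r := h.row d hd
          have k0 := h.κ0 d hd
          have k1 := h.κ1 hd
          have f0 := hf.f0 d
          have fk := hf.fκ d hd
          have c1 : (∑ z ∈ U, x d z) * f d ^ 2 ≤ (1 - κ d) * f d ^ 2 :=
            mul_le_mul_of_nonneg_right r (sq_nonneg _)
          have c2 : (1 - κ d) * f d ^ 2 ≤ (1 - κ d) * (f d * κ d) := by
            refine mul_le_mul_of_nonneg_left ?_ k1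
            nlinarith
          have c3 : (1 - κ d) * κ d ≤ 1 / 4 := by nlinarith [sq_nonneg (κ d - 1 / 2)]
          have c4 : (1 - κ d) * (f d * κ d) ≤ f d / 4 := by
            have := mul_le_mul_of_nonneg_left c3 f0
            nlinarith
          linarith
        calc ∑ d ∈ U, ∑ z ∈ U, x d z * f d ^ 2 ≤ ∑ d ∈ U, f d / 4 := Finset.sum_le_sum b1
          _ = (∑ d ∈ U, f d) / 4 := by rw [Finset.sum_div]
          _ ≤ M / 4 := by
              have := hf.fM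
              linarith

end Pool.Agent.RX.EPS
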