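import Pool.Agent.RX.EPS.Defs

/-! Squad EPS (MP_73ccd0_lc). -/

namespace Pool.Agent.RX.EPS

open Set Finset

set_option linter.unusedSectionVars false

variable {V : Type*} [Fintype V] [DecidableEq V]
variable {U : Finset V} {x : V → V → ℝ} {κ G f : V → ℝ} {T : V → V → ℝ}
variable {m lam g s M β c : ℝ} {ψ : ℝ → ℝ}

private theorem OpT_row (h : Wx U x κ) (hK : Kx U x κ G m lam g s T) (w : V → ℝ) :
    ∑ e ∈ U, ∑ b ∈ U, x e b * (G e * w e) ^ 2 ≤ lam * ∑ e ∈ U, w e ^ 2 := by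
  rw [Finset.mul_sum]
  refine Finset.sum_le_sum fun e he => ?_
  rw [← Finset.sum_mul]
  have h1 := h.row e he
  have h2 := hK.hl e he
  have h3 : 0 ≤ (G e * w e) ^ 2 := sq_nonneg _
  calc (∑ b ∈ U, x e b) * (G e * w e) ^ 2 ≤ (1 - κ e) * (G e * w e) ^ 2 :=
        mul_le_mul_of_nonneg_right h1 h3
    _ = (G e ^ 2 * (1 - κ e)) * w e ^ 2 := by ring
    _ ≤ lam * w e ^ 2 := mul_le_mul_of_nonneg_right h2 (sq_nonneg _)

/-- The norm of the kernel. Bound `T e b ≤ m x_eb G_e G_b`, then Cauchy-Schwarz over the pairs: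
`Σ_{e,b} x_eb (G_e w_e) (G_b u_b) ≤ √(Σ x_eb G_e² w_e²) √(Σ x_eb G_b² u_b²)
≤ √(lam Σ w²) √(lam Σ u²)` (rows of `x`, `hl`, symmetry of `x`). -/
theorem op_T (h : Wx U x κ) (hK : Kx U x κ G m lam g s T) : Op U T (m * lam) := by
  intro w u hw hu
  have hcs := cs_sq (U ×ˢ U) (q := fun p : V × V => x p.1 p.2) (fun p _ => h.x0 p.1 p.2)
    (fun p => G p.1 * w p.1) (fun p => G p.2 * u p.2)
  rw [Finset.sum_product, Finset.sum_product, Finset.sum_product] at hcs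
  simp only at hcs
  set A : ℝ := ∑ e ∈ U, ∑ b ∈ U, x e b * (G e * w e * (G b * u b)) with hA
  have hA0 : 0 ≤ A := Finset.sum_nonneg fun e he => Finset.sum_nonneg fun b hb =>
    mul_nonneg (h.x0 e b) (mul_nonneg (mul_nonneg (hK.G0 e he) (hw e he))
      (mul_nonneg (hK.G0 b hb) (hu b hb)))
  have h1 := OpT_row h hK w
  have h2 : ∑ e ∈ U, ∑ b ∈ U, x e b * (G b * u b) ^ 2 ≤ lam * ∑ e ∈ U, u e ^ 2 := by
    rw [Finset.sum_comm]
    have := OpT_row h hK u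
    refine le_trans (le_of_eq ?_) this
    exact Finset.sum_congr rfl fun e _ => Finset.sum_congr rfl fun b _ => by rw [h.xs b e]
  rw [← nm_sq] at h1 h2
  have hB0 : 0 ≤ ∑ e ∈ U, ∑ b ∈ U, x e b * (G b * u b) ^ 2 :=
    Finset.sum_nonneg fun e _ => Finset.sum_nonneg fun b _ => mul_nonneg (h.x0 e b) (sq_nonneg _)
  have hA2 : A ^ 2 ≤ (lam * (nm U w * nm U u)) ^ 2 := by
    calc A ^ 2 ≤ _ := hcs
      _ ≤ (lam * nm U w ^ 2) * (lam * nm U u ^ 2) :=
        mul_le_mul h1 h2 hB0 (mul_nonneg hK.lam0 (sq_nonneg _))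
      _ = _ := by ring
  have hn : 0 ≤ lam * (nm U w * nm U u) :=
    mul_nonneg hK.lam0 (mul_nonneg (nm_nonneg _ _) (nm_nonneg _ _))
  have hAle : A ≤ lam * (nm U w * nm U u) := abs_le_of_sq_le_sq' hA2 hn |>.2
  calc ∑ e ∈ U, w e * ∑ b ∈ U, T e b * u b
      = ∑ e ∈ U, ∑ b ∈ U, w e * (T e b * u b) :=
        Finset.sum_congr rfl fun e _ => Finset.mul_sum _ _ _
    _ ≤ ∑ e ∈ U, ∑ b ∈ U, m * (x e b * (G e * w e * (G b * u b))) := by
        refine Finset.sum_le_sum fun e he => Finset.sum_le_sum fun b hb => ?_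
        have h3 := hK.le e he b hb
        have h4 : 0 ≤ w e * u b := mul_nonneg (hw e he) (hu b hb)
        nlinarith [mul_le_mul_of_nonneg_right h3 h4]
    _ = m * A := by
        rw [hA, Finset.mul_sum]
        exact Finset.sum_congr rfl fun e _ => (Finset.mul_sum _ _ _).symm
    _ ≤ m * (lam * (nm U w * nm U u)) := mul_le_mul_of_nonneg_left hAle hK.m0
    _ = m * lam * (nm U w * nm U u) := by ring

end Pool.Agent.RX.EPS
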