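import Pool.Agent.RX.EPS.Defs

/-! Squad EPS (MP_73ccd0_lc). -/

namespace Pool.Agent.RX.EPS

open Set Finset

set_option linter.unusedSectionVars false

variable {V : Type*} [Fintype V] [DecidableEq V]
variable {U : Finset V} {x : V → V → ℝ} {κ G f : V → ℝ} {T : V → V → ℝ}
variable {m lam g s M β c : ℝ} {ψ : ℝ → ℝ}

/-- `Qo X T g a = Σ_x g_x (R_x a_x + (T a)_x)`, then `ip_le` twice. -/
theorem Qo_cs (X : Finset V) (T : V → V → ℝ) (w a : V → ℝ) :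
    Qo X T w a ≤ nm X w * (nm X (fun e => (∑ b ∈ X, T e b) * a e)
      + nm X (fun e => ∑ b ∈ X, T e b * a b)) := by
  have e1 : Qo X T w a = ∑ e ∈ X, w e * ((∑ b ∈ X, T e b) * a e)
      + ∑ e ∈ X, w e * ∑ b ∈ X, T e b * a b := by
    unfold Qo
    rw [← Finset.sum_add_distrib]
    refine Finset.sum_congr rfl fun e _ => ?_
    rw [Finset.sum_mul, Finset.mul_sum, Finset.mul_sum, ← Finset.sum_add_distrib]
    refine Finset.sum_congr rfl fun b _ => ?_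
    ring
  rw [e1, mul_add]
  exact add_le_add (ip_le X w _) (ip_le X w _)

/-- Sources with one centre, the diagonal part: `Σ_e (R_e D_e)² ≤ ρ² Σ_e x z e ≤ ρ²`. -/
theorem RD_z (h : Wx U x κ) {z : V} (hz : z ∈ U) {R D : V → ℝ} {ρ : ℝ} (ρ0 : 0 ≤ ρ)
    (hρ : ∀ e ∈ U.erase z, (R e * D e) ^ 2 ≤ ρ ^ 2 * x z e) :
    nm (U.erase z) (fun e => R e * D e) ≤ ρ := by
  refine nm_le ρ0 ?_
  calc ∑ e ∈ U.erase z, (R e * D e) ^ 2 ≤ ∑ e ∈ U.erase z, ρ ^ 2 * x z e :=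
        Finset.sum_le_sum hρ
    _ = ρ ^ 2 * ∑ e ∈ U.erase z, x z e := by rw [Finset.mul_sum]
    _ ≤ ρ ^ 2 * 1 := by
        refine mul_le_mul_of_nonneg_left ?_ (sq_nonneg ρ)
        have h1 := h.rowS (Finset.erase_subset z U) hz
        have h2 := h.κ0 z hz
        linarith
    _ = ρ ^ 2 := mul_one _

end Pool.Agent.RX.EPS
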