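import Mathlib

/-! Squad EPS (MP_73ccd0_lc). -/

namespace Pool.Agent.RX.EPS

open Set Finset

set_option linter.unusedSectionVars false

variable {V : Type*} [Fintype V] [DecidableEq V]
variable {U : Finset V} {x : V → V → ℝ} {κ G f : V → ℝ} {T : V → V → ℝ}
variable {m lam g s M β c : ℝ} {ψ : ℝ → ℝ}

/-- convexity of the exponential -/
theorem exp_chord {a k : ℝ} (k0 : 0 ≤ k) (k1 : k ≤ 1) :
    Real.exp (a * k) ≤ 1 + (Real.exp a - 1) * k := by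
  have h := convexOn_exp.2 (Set.mem_univ (0 : ℝ)) (Set.mem_univ a) (sub_nonneg.2 k1) k0
    (by ring : (1 - k) + k = 1)
  simp only [smul_eq_mul, mul_zero, zero_add, Real.exp_zero, mul_one] at h
  calc Real.exp (a * k) = Real.exp (k * a) := by rw [mul_comm]
    _ ≤ 1 - k + k * Real.exp a := h
    _ = 1 + (Real.exp a - 1) * k := by ring

/-- `Σ y κ` for weights `y_v + κ_v ≤ 1`, `Σ κ ≤ K`, `Σ y ≤ p ≤ 1`. For every `μ` and `y + κ ≤ 1`:
`y κ ≤ μ² y + (1 - μ)² κ` (linear in `κ` for fixed `y`; true at `κ = 0`, and at `κ = 1 - y` the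
difference is `(y - (1 - μ))²`). Take `μ = 1 - p / (K + 1)`: `Σ y κ ≤ μ² p + (1 - μ)² K ≤
p (1 - p / (K + 1))` because `p ≤ 1`. -/
theorem row_K {S : Finset V} {y k : V → ℝ} {K p a : ℝ} (K0 : 0 ≤ K) (y0 : ∀ v ∈ S, 0 ≤ y v)
    (k0 : ∀ v ∈ S, 0 ≤ k v) (yk : ∀ v ∈ S, y v + k v ≤ 1) (hk : ∑ v ∈ S, k v ≤ K)
    (hp : ∑ v ∈ S, y v ≤ p) (p1 : p ≤ 1) (a0 : 0 ≤ a) :
    ∑ v ∈ S, y v * (1 + a * k v) ≤ p * (1 + a * (1 - p / (K + 1))) := by
  have hK : 0 < K + 1 := by linarith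
  have p0 : 0 ≤ p := (Finset.sum_nonneg y0).trans hp
  obtain ⟨r, hr⟩ : ∃ r : ℝ, r = p / (K + 1) := ⟨_, rfl⟩
  have hr' : r * (K + 1) = p := by rw [hr]; field_simp
  have r0 : 0 ≤ r := by rw [hr]; positivity
  have pt : ∀ v ∈ S, y v * k v ≤ (1 - r) ^ 2 * y v + r ^ 2 * k v := by
    intro v hv
    have a1 := y0 v hv
    have a2 := k0 v hv
    have a3 : 0 ≤ 1 - y v - k v := by linarith [yk v hv]
    have a4 : 0 ≤ (1 - r) ^ 2 * y v + r ^ 2 * k v := by positivity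
    nlinarith [mul_nonneg a3 a4, sq_nonneg ((1 - r) * y v - r * k v)]
  have s1 : ∑ v ∈ S, y v * k v ≤ (1 - r) ^ 2 * ∑ v ∈ S, y v + r ^ 2 * ∑ v ∈ S, k v := by
    rw [Finset.mul_sum, Finset.mul_sum, ← Finset.sum_add_distrib]
    exact Finset.sum_le_sum pt
  have s2 : ∑ v ∈ S, y v * k v ≤ (1 - r) ^ 2 * p + r ^ 2 * K := by
    have b1 := mul_le_mul_of_nonneg_left hp (sq_nonneg (1 - r))
    have b2 := mul_le_mul_of_nonneg_left hk (sq_nonneg r)
    linarith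
  have s3 : (1 - r) ^ 2 * p + r ^ 2 * K ≤ p * (1 - r) := by
    have c1 : r ^ 2 * K = r * (p - r) := by
      linear_combination r * hr'
    have c2 : 0 ≤ r * (r * (1 - p)) := mul_nonneg r0 (mul_nonneg r0 (by linarith))
    rw [c1]
    nlinarith
  have e : ∑ v ∈ S, y v * (1 + a * k v) = ∑ v ∈ S, y v + a * ∑ v ∈ S, y v * k v := by
    rw [Finset.mul_sum, ← Finset.sum_add_distrib]
    exact Finset.sum_congr rfl fun v _ => by ring
  rw [e, ← hr]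
  have := mul_le_mul_of_nonneg_left (s2.trans s3) a0
  linarith

end Pool.Agent.RX.EPS
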