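import Pool.Agent.RX.EPS.Defs

/-! Squad EPS (MP_73ccd0_lc). -/

namespace Pool.Agent.RX.EPS

open Set Finset

set_option linter.unusedSectionVars false

variable {V : Type*} [Fintype V] [DecidableEq V]
variable {U : Finset V} {x : V → V → ℝ} {κ G f : V → ℝ} {T : V → V → ℝ}
variable {m lam g s M β c : ℝ} {ψ : ℝ → ℝ}

/-- Row sums of the kernel without `z`. `G u = w exp (a κ u)`. `Σ_{b ≠ z} T e b ≤ m G_e Σ_b x_eb G_b ≤
m G_e w Σ_b x_eb (1 + (exp a - 1) κ_b)` (hypothesis `hch`, convexity, module RowK) `≤ m w² exp (a κ_e) p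
(1 + (exp a - 1) (1 - p / (K + 1)))` with `p = 1 - κ_e - x_ze` (hypothesis `hrow` = `row_K` of module
RowK, `x_eb + κ_b ≤ 1`), then `hsc` (= `sc_R` of module ScR) with `k = κ_e`, `y = x_ze`. -/
theorem R_z (h : Wx U x κ) (hK : Kx U x κ G m lam g s T) {w a K : ℝ} (w0 : 0 ≤ w) (a0 : 0 ≤ a)
    (K0 : 0 ≤ K) (hG : ∀ u ∈ U, G u = w * Real.exp (a * κ u)) (hκ : ∑ u ∈ U, κ u ≤ K)
    (hch : ∀ k : ℝ, 0 ≤ k → k ≤ 1 → Real.exp (a * k) ≤ 1 + (Real.exp a - 1) * k)
    (hrow : ∀ (S : Finset V) (y k : V → ℝ) (p : ℝ), (∀ v ∈ S, 0 ≤ y v) → (∀ v ∈ S, 0 ≤ k v) →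
      (∀ v ∈ S, y v + k v ≤ 1) → ∑ v ∈ S, k v ≤ K → ∑ v ∈ S, y v ≤ p → p ≤ 1 →
      ∑ v ∈ S, y v * (1 + (Real.exp a - 1) * k v)
        ≤ p * (1 + (Real.exp a - 1) * (1 - p / (K + 1))))
    (hsc : ∀ k y : ℝ, 0 ≤ k → 0 ≤ y → k + y ≤ 1 →
      Real.exp (a * k) * ((1 - k - y) * (1 + (Real.exp a - 1) * (1 - (1 - k - y) / (K + 1))))
        ≤ (1 - y) * (1 + (Real.exp a - 1) * (1 - (1 - y) / (K + 1)))) :
    (∀ e ∈ U, ∑ b ∈ U, T e b ≤ m * (w ^ 2 * (1 + (Real.exp a - 1) * (1 - 1 / (K + 1))))) ∧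
    ∀ z ∈ U, ∀ e ∈ U.erase z, ∀ S ⊆ U.erase z, ∑ b ∈ S, T e b
      ≤ m * (w ^ 2 * ((1 - x z e) * (1 + (Real.exp a - 1) * (1 - (1 - x z e) / (K + 1))))) := by
  have hm := hK.m0
  have hea : 0 ≤ Real.exp a - 1 := by
    have := Real.add_one_le_exp a
    linarith
  have key : ∀ e ∈ U, ∀ S : Finset V, S ⊆ U → ∀ y : ℝ, 0 ≤ y → κ e + y ≤ 1 →
      ∑ b ∈ S, x e b ≤ 1 - κ e - y →
      ∑ b ∈ S, T e b ≤ m * (w ^ 2 * ((1 - y) * (1 + (Real.exp a - 1) *
        (1 - (1 - y) / (K + 1))))) := by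
    intro e he S hS y hy hky hsum
    have hκe := h.κ0 e he
    have h1 : ∑ b ∈ S, T e b ≤ ∑ b ∈ S, m * (w * Real.exp (a * κ e)) * w *
        (x e b * (1 + (Real.exp a - 1) * κ b)) := by
      refine Finset.sum_le_sum fun b hb => ?_
      have hbU := hS hb
      have h2 := hK.le e he b hbU
      have hκb := h.κ0 b hbU
      have h3 : x b e ≤ 1 - κ b := h.le1 hbU he
      have hx0 := h.x0 e b
      have h4 := hch (κ b) hκb (by rw [h.xs b e] at h3; linarith)
      rw [hG e he, hG b hbU] at h2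
      refine h2.trans ?_
      have h5 : 0 ≤ m * (w * Real.exp (a * κ e)) * w * x e b := by positivity
      calc m * (x e b * (w * Real.exp (a * κ e) * (w * Real.exp (a * κ b))))
          = m * (w * Real.exp (a * κ e)) * w * x e b * Real.exp (a * κ b) := by ring
        _ ≤ m * (w * Real.exp (a * κ e)) * w * x e b * (1 + (Real.exp a - 1) * κ b) :=
            mul_le_mul_of_nonneg_left h4 h5
        _ = m * (w * Real.exp (a * κ e)) * w * (x e b * (1 + (Real.exp a - 1) * κ b)) := by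
            ring
    have h6 := hrow S (fun b => x e b) κ (1 - κ e - y) (fun v _ => h.x0 e v)
      (fun v hv => h.κ0 v (hS hv))
      (fun v hv => by
        have h3 : x v e ≤ 1 - κ v := h.le1 (hS hv) he
        rw [h.xs v e] at h3
        linarith)
      ((Finset.sum_le_sum_of_subset_of_nonneg hS fun v hv _ => h.κ0 v hv).trans hκ)
      hsum (by linarith)
    have h7 := hsc (κ e) y hκe hy hky
    have h8 : 0 ≤ m * (w * Real.exp (a * κ e)) * w := by positivity
    calc ∑ b ∈ S, T e b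
        ≤ ∑ b ∈ S, m * (w * Real.exp (a * κ e)) * w *
          (x e b * (1 + (Real.exp a - 1) * κ b)) := h1
      _ = m * (w * Real.exp (a * κ e)) * w *
          ∑ b ∈ S, x e b * (1 + (Real.exp a - 1) * κ b) := by rw [Finset.mul_sum]
      _ ≤ m * (w * Real.exp (a * κ e)) * w * ((1 - κ e - y) *
          (1 + (Real.exp a - 1) * (1 - (1 - κ e - y) / (K + 1)))) :=
          mul_le_mul_of_nonneg_left h6 h8
      _ = m * w ^ 2 * (Real.exp (a * κ e) * ((1 - κ e - y) *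
          (1 + (Real.exp a - 1) * (1 - (1 - κ e - y) / (K + 1))))) := by ring
      _ ≤ m * w ^ 2 * ((1 - y) * (1 + (Real.exp a - 1) * (1 - (1 - y) / (K + 1)))) := by
          refine mul_le_mul_of_nonneg_left h7 (by positivity)
      _ = _ := by ring
  constructor
  · intro e he
    have hrow' := h.row e he
    have h1 := key e he U (Finset.Subset.refl U) 0 le_rfl (by
      have := h.κ1 he
      linarith) (by linarith)
    simpa using h1
  · intro z hz e he S hS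
    have heU := Finset.mem_of_mem_erase he
    refine key e heU S (hS.trans (Finset.erase_subset z U)) (x z e) (h.x0 z e) ?_
      (h.rowz hz hS heU)
    have h3 : x e z ≤ 1 - κ e := h.le1 heU hz
    rw [h.xs e z] at h3
    linarith

end Pool.Agent.RX.EPS
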