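import Mathlib

/-! Squad EPS (MP_73ccd0_lc). -/

namespace Pool.Agent.RX.EPS

open Set Finset

set_option linter.unusedSectionVars false

variable {V : Type*} [Fintype V] [DecidableEq V]
variable {U : Finset V} {x : V → V → ℝ} {κ G f : V → ℝ} {T : V → V → ℝ}
variable {m lam g s M β c : ℝ} {ψ : ℝ → ℝ}

/-- Scalar lemma (monotone in `k`). For `y = 1`: `k = 0`, trivial. Otherwise put `k' = k / (1 - y) ∈
[0, 1]`, `a' = a (1 - y) ≤ a ≤ 1`, `R = 1 + e (1 - (1 - y) / (K + 1))`: the left side is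
`exp (a' k') (1 - y) (1 - k') (R + e (1 - y) k' / (K + 1))`; `exp (a' k') (1 - k') ≤ 1 - (1 - a') k'`
(from `exp z ≤ 1 / (1 - z)`, `z = a' k' < 1`, and `(1 - k') ≤ (1 - (1 - a') k') (1 - a' k')`; the case
`a' k' = 1` is trivial), and `(1 - (1 - a') k') (R + e (1 - y) k' / (K + 1)) ≤ R` because
`e (1 - y) / (K + 1) ≤ e / (K + 1) ≤ (1 - a) (1 + e (1 - 1 / (K + 1))) ≤ (1 - a') R`. -/
theorem sc_R {a e K k y : ℝ} (a0 : 0 ≤ a) (a1 : a ≤ 1) (e0 : 0 ≤ e) (K0 : 0 ≤ K) (k0 : 0 ≤ k)
    (y0 : 0 ≤ y) (ky : k + y ≤ 1)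
    (hc : e / (K + 1) ≤ (1 - a) * (1 + e * (1 - 1 / (K + 1)))) :
    Real.exp (a * k) * ((1 - k - y) * (1 + e * (1 - (1 - k - y) / (K + 1))))
      ≤ (1 - y) * (1 + e * (1 - (1 - y) / (K + 1))) := by
  have hK1 : 0 < K + 1 := by linarith
  set q : ℝ := 1 / (K + 1) with hq
  have hq0 : 0 < q := by rw [hq]; positivity
  have hq1 : q ≤ 1 := by rw [hq, div_le_one hK1]; linarith
  have e1 : ∀ t : ℝ, t / (K + 1) = t * q := by
    intro t
    rw [hq, mul_one_div]
  rw [e1, e1]
  rw [e1] at hc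
  have hY0 : 0 ≤ 1 - y := by linarith
  rcases hY0.eq_or_lt with hY | hY
  · have hk : k = 0 := by linarith
    have hy : y = 1 := by linarith
    rw [hk, hy]
    simp
  set Y : ℝ := 1 - y with hYd
  have hY1 : Y ≤ 1 := by rw [hYd]; linarith
  set s : ℝ := k / Y with hs
  have hks : k = s * Y := by rw [hs]; field_simp
  have hs0 : 0 ≤ s := by rw [hs]; positivity
  have hs1 : s ≤ 1 := by
    rw [hs, div_le_one hY]
    rw [hYd]; linarith
  set b : ℝ := a * Y with hb
  have hb0 : 0 ≤ b := by rw [hb]; positivity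
  have hba : b ≤ a := by rw [hb]; nlinarith
  have hb1 : b ≤ 1 := by linarith
  set R : ℝ := 1 + e * (1 - Y * q) with hR
  have hYq : Y * q ≤ q := by nlinarith
  have hR1 : 1 + e * (1 - q) ≤ R := by rw [hR]; nlinarith
  have hR0 : 0 < R := by
    have : 0 ≤ e * (1 - q) := mul_nonneg e0 (by linarith)
    linarith
  have hak : a * k = b * s := by rw [hb, hks]; ring
  have c1 : Real.exp (b * s) * (1 - s) ≤ 1 - (1 - b) * s := by
    have h1 : Real.exp (b * s) * (1 - b * s) ≤ 1 := by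
      have h2 := Real.add_one_le_exp (-(b * s))
      have h3 : Real.exp (b * s) * (1 - b * s) ≤ Real.exp (b * s) * Real.exp (-(b * s)) :=
        mul_le_mul_of_nonneg_left (by linarith) (Real.exp_pos _).le
      rw [← Real.exp_add, add_neg_cancel, Real.exp_zero] at h3
      exact h3
    have h4 : 0 ≤ 1 - (1 - b) * s := by nlinarith
    have h5 : 1 - s ≤ (1 - (1 - b) * s) * (1 - b * s) := by
      have : 0 ≤ b * s ^ 2 * (1 - b) := by
        have : 0 ≤ 1 - b := by linarith
        positivity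
      nlinarith
    calc Real.exp (b * s) * (1 - s)
        ≤ Real.exp (b * s) * ((1 - (1 - b) * s) * (1 - b * s)) :=
          mul_le_mul_of_nonneg_left h5 (Real.exp_pos _).le
      _ = (1 - (1 - b) * s) * (Real.exp (b * s) * (1 - b * s)) := by ring
      _ ≤ (1 - (1 - b) * s) * 1 := mul_le_mul_of_nonneg_left h1 h4
      _ = 1 - (1 - b) * s := mul_one _
  have c2 : e * q * Y ≤ (1 - b) * R := by
    have h1 : e * q * Y ≤ e * q := by
      have : 0 ≤ e * q := by positivity
      nlinarith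
    have h2 : (1 - a) * (1 + e * (1 - q)) ≤ (1 - b) * R := by
      have h3 : 0 ≤ e * (1 - q) := mul_nonneg e0 (by linarith)
      apply mul_le_mul (by linarith) hR1 (by linarith) (by linarith)
    linarith
  have c3 : (1 - (1 - b) * s) * (R + e * q * Y * s) ≤ R := by
    have h1 : 0 ≤ e * q * Y * s := by positivity
    have h2 : e * q * Y * s ≤ (1 - b) * R * s := mul_le_mul_of_nonneg_right c2 hs0
    have h3 : 0 ≤ (1 - b) * s * (e * q * Y * s) := by
      have : 0 ≤ 1 - b := by linarith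
      positivity
    nlinarith
  have hp : 1 - k - y = Y * (1 - s) := by
    rw [hks, hYd]; ring
  rw [hp, hak]
  have hfac : 1 + e * (1 - Y * (1 - s) * q) = R + e * q * Y * s := by rw [hR]; ring
  rw [hfac]
  have hnn : 0 ≤ R + e * q * Y * s := by positivity
  calc Real.exp (b * s) * (Y * (1 - s) * (R + e * q * Y * s))
      = Y * ((Real.exp (b * s) * (1 - s)) * (R + e * q * Y * s)) := by ring
    _ ≤ Y * ((1 - (1 - b) * s) * (R + e * q * Y * s)) := by gcongr
    _ ≤ Y * R := by gcongr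

end Pool.Agent.RX.EPS
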