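import Mathlib

/-! Squad EPS (MP_73ccd0_lc). -/

namespace Pool.Agent.RX.EPS

open Set Finset

set_option linter.unusedSectionVars false

variable {V : Type*} [Fintype V] [DecidableEq V]
variable {U : Finset V} {x : V → V → ℝ} {κ G f : V → ℝ} {T : V → V → ℝ}
variable {m lam g s M β c : ℝ} {ψ : ℝ → ℝ}

/-- `(1 - k) exp (2 a k) ≤ 1` for `2 a ≤ 1` (`1 - k ≤ exp (-k)`); for `2 a > 1`: the maximum over `k` is
`exp (2a - 1) / (2a)` at `k = 1 - 1/(2a)` (e.g. `2 a (1 - k) exp (2 a k) = exp (2 a - 1) * (v exp (1 - v))`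
with `v = 2 a (1 - k)` and `v exp (1 - v) ≤ 1`), and `exp y ≤ (1 + y) (1 + y² / 2)` for `0 ≤ y ≤ 1`
with `y = 2 a - 1`. -/
theorem sup_lam {a k : ℝ} (a0 : 0 ≤ a) (a1 : a ≤ 1) (k0 : 0 ≤ k) (k1 : k ≤ 1) :
    (1 - k) * Real.exp (2 * (a * k)) ≤ 1 + (max 0 (2 * a - 1)) ^ 2 / 2 := by
  have hy : ∀ y : ℝ, 0 ≤ y → y ≤ 1 → Real.exp y ≤ (1 + y) * (1 + y ^ 2 / 2) := by
    intro y y0 y1
    have h := Real.exp_bound' y0 y1 (n := 3) (by norm_num)
    simp only [Finset.sum_range_succ, Finset.sum_range_zero, Nat.factorial] at h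
    norm_num at h
    have h3 : 0 ≤ y ^ 3 := by positivity
    nlinarith
  rcases le_or_gt (2 * a) 1 with h | h
  · have h1 : max 0 (2 * a - 1) = 0 := max_eq_left (by linarith)
    rw [h1]
    have h2 : 1 - k ≤ Real.exp (-k) := by
      have := Real.add_one_le_exp (-k)
      linarith
    calc (1 - k) * Real.exp (2 * (a * k)) ≤ Real.exp (-k) * Real.exp (2 * (a * k)) := by
          gcongr
      _ = Real.exp (-((1 - 2 * a) * k)) := by
          rw [← Real.exp_add]
          ring_nf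
      _ ≤ 1 := by
          rw [Real.exp_le_one_iff]
          have : 0 ≤ (1 - 2 * a) * k := mul_nonneg (by linarith) k0
          linarith
      _ ≤ 1 + (0 : ℝ) ^ 2 / 2 := by norm_num
  · have h1 : max 0 (2 * a - 1) = 2 * a - 1 := max_eq_right (by linarith)
    rw [h1]
    have h2 := hy (2 * a - 1) (by linarith) (by linarith)
    have h3 : 2 * a * (1 - k) ≤ Real.exp (2 * a * (1 - k) - 1) := by
      have := Real.add_one_le_exp (2 * a * (1 - k) - 1)
      linarith
    have h4 : 2 * a * ((1 - k) * Real.exp (2 * (a * k))) ≤ Real.exp (2 * a - 1) := by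
      calc 2 * a * ((1 - k) * Real.exp (2 * (a * k))) =
            (2 * a * (1 - k)) * Real.exp (2 * (a * k)) := by ring
        _ ≤ Real.exp (2 * a * (1 - k) - 1) * Real.exp (2 * (a * k)) := by gcongr
        _ = Real.exp (2 * a - 1) := by
            rw [← Real.exp_add]
            ring_nf
    have h5 : 2 * a * ((1 - k) * Real.exp (2 * (a * k))) ≤
        2 * a * (1 + (2 * a - 1) ^ 2 / 2) := by
      calc 2 * a * ((1 - k) * Real.exp (2 * (a * k))) ≤ Real.exp (2 * a - 1) := h4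
        _ ≤ (1 + (2 * a - 1)) * (1 + (2 * a - 1) ^ 2 / 2) := h2
        _ = 2 * a * (1 + (2 * a - 1) ^ 2 / 2) := by ring
    exact le_of_mul_le_mul_left h5 (by linarith)

/-- With `d = k - 1/2`: `4 k (1 - k) = 1 - 4 d² ≤ exp (-4 d²)` and `2 a k - 4 d² = a + 2 a d - 4 d² ≤
a + a² / 4`. -/
theorem sup_s {a k : ℝ} : k * (1 - k) * Real.exp (2 * (a * k)) ≤ Real.exp (a + a ^ 2 / 4) / 4 := by
  have h1 : k * (1 - k) ≤ Real.exp (-(4 * (k - 1 / 2) ^ 2)) / 4 := by
    have := Real.add_one_le_exp (-(4 * (k - 1 / 2) ^ 2))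
    nlinarith
  calc k * (1 - k) * Real.exp (2 * (a * k)) ≤
        Real.exp (-(4 * (k - 1 / 2) ^ 2)) / 4 * Real.exp (2 * (a * k)) := by
        gcongr
    _ = Real.exp (-(4 * (k - 1 / 2) ^ 2) + 2 * (a * k)) / 4 := by
        rw [Real.exp_add]
        ring
    _ ≤ Real.exp (a + a ^ 2 / 4) / 4 := by
        have : -(4 * (k - 1 / 2) ^ 2) + 2 * (a * k) ≤ a + a ^ 2 / 4 := by
          nlinarith [sq_nonneg (a / 2 - 2 * (k - 1 / 2))]
        gcongr

theorem sup_g {a k : ℝ} (a1 : a ≤ 1) (k0 : 0 ≤ k) (k1 : k ≤ 1) :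
    (1 - k) * Real.exp (a * k) ≤ 1 := by
  have h2 : 1 - k ≤ Real.exp (-k) := by
    have := Real.add_one_le_exp (-k)
    linarith
  calc (1 - k) * Real.exp (a * k) ≤ Real.exp (-k) * Real.exp (a * k) := by gcongr
    _ = Real.exp (-((1 - a) * k)) := by
        rw [← Real.exp_add]
        ring_nf
    _ ≤ 1 := by
        rw [Real.exp_le_one_iff]
        have : 0 ≤ (1 - a) * k := mul_nonneg (by linarith) k0
        linarith

end Pool.Agent.RX.EPS
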