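import Pool.Agent.RX.EPS.Defs

/-! Squad EPS (MP_73ccd0_lc). -/

namespace Pool.Agent.RX.EPS

open Set Finset

set_option linter.unusedSectionVars false

variable {V : Type*} [Fintype V] [DecidableEq V]
variable {U : Finset V} {x : V → V → ℝ} {κ G f : V → ℝ} {T : V → V → ℝ}
variable {m lam g s M β c : ℝ} {ψ : ℝ → ℝ}

/-- `‖T Df‖` for the summed sources `Df b = Σ_c f_c D_c(b)`. First `Df(b)² ≤ β² (1 - κ_b) Σ_c x_bc f_c²
ψ(x_cb)²` (Cauchy-Schwarz `cs_sq`); `T e b Df b ≤ m G_e x_eb (G_b Df_b)`; the lemma `gx` (hypothesis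
here) with `φ = G Df` gives `m² lam Σ_b (1 - κ_b) G_b² Df_b² ≤ m² lam β² g² Σ_b Σ_c x_bc f_c² ψ(x_cb)²`
since `G_b (1 - κ_b) ≤ g`; exchange the sums, `Σ_b x_cb ψ(x_cb)² ≤ (1 - κ_c) ψ(1 - κ_c)²`,
`f_c (1 - κ_c) ψ(1 - κ_c)² ≤ (c / 2)²`, `Σ f_c ≤ M`. -/
theorem TDf_norm (h : Wx U x κ) (hK : Kx U x κ G m lam g s T) (hf : Fw U κ f M) (hψ : Ps ψ c)
    (hgx : ∀ φ : V → ℝ, ∑ e ∈ U, (G e * ∑ b ∈ U, x e b * φ b) ^ 2
      ≤ lam * ∑ b ∈ U, (1 - κ b) * φ b ^ 2)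
    (β0 : 0 ≤ β) {D : V → V → ℝ} (D0 : ∀ c e, 0 ≤ D c e)
    (hD : ∀ c ∈ U, ∀ e ∈ U, D c e ≤ β * (x c e * ψ (x c e))) :
    nm U (fun e => ∑ b ∈ U, T e b * ∑ d ∈ U.erase b, f d * D d b)
      ≤ m * (Real.sqrt lam * (β * (c / 2 * g))) * Real.sqrt M := by
  have κle : ∀ u ∈ U, κ u ≤ 1 := fun u hu => by linarith [h.κ1 hu]
  have m0 := hK.m0
  have g0 := hK.g0
  have c0 := hψ.c0
  have M0 := hf.M0
  -- the values of the profile
  have vI : ∀ i ∈ U, (1 - κ i) ∈ Icc (0 : ℝ) 1 := fun i hi =>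
    ⟨h.κ1 hi, by linarith [h.κ0 i hi]⟩
  have xI : ∀ i ∈ U, ∀ j ∈ U, x i j ∈ Icc (0 : ℝ) 1 := fun i hi j hj =>
    ⟨h.x0 i j, (h.le1 hi hj).trans (vI i hi).2⟩
  have ψ0 : ∀ i ∈ U, ∀ j ∈ U, 0 ≤ ψ (x i j) := fun i hi j hj => hψ.p0 _ (xI i hi j hj)
  -- the summed sources
  set Df : V → ℝ := fun b => ∑ d ∈ U.erase b, f d * D d b with hDf
  have Df0 : ∀ b, 0 ≤ Df b := fun b =>
    Finset.sum_nonneg fun d _ => mul_nonneg (hf.f0 d) (D0 d b)
  have Df1 : ∀ b ∈ U, Df b ≤ β * ∑ d ∈ U, x b d * (1 * (f d * ψ (x d b))) := by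
    intro b hb
    calc Df b ≤ ∑ d ∈ U, f d * D d b :=
          Finset.sum_le_sum_of_subset_of_nonneg (Finset.erase_subset b U)
            fun d _ _ => mul_nonneg (hf.f0 d) (D0 d b)
      _ ≤ ∑ d ∈ U, β * (x b d * (1 * (f d * ψ (x d b)))) := by
          refine Finset.sum_le_sum fun d hd => ?_
          have h1 := mul_le_mul_of_nonneg_left (hD d hd b hb) (hf.f0 d)
          rw [h.xs b d]
          calc f d * D d b ≤ f d * (β * (x d b * ψ (x d b))) := h1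
            _ = β * (x d b * (1 * (f d * ψ (x d b)))) := by ring
      _ = _ := by rw [Finset.mul_sum]
  have Df2 : ∀ b ∈ U, Df b ^ 2
      ≤ β ^ 2 * ((1 - κ b) * ∑ d ∈ U, x b d * (f d * ψ (x d b)) ^ 2) := by
    intro b hb
    have h1 := cs_sq U (q := fun d => x b d) (fun e _ => h.x0 b e) (fun _ => (1 : ℝ))
      (fun d => f d * ψ (x d b))
    have h2 : ∑ e ∈ U, x b e * (1 : ℝ) ^ 2 ≤ 1 - κ b := by
      have := h.row b hb
      simpa using this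
    have h3 : 0 ≤ ∑ d ∈ U, x b d * (f d * ψ (x d b)) ^ 2 :=
      Finset.sum_nonneg fun d _ => mul_nonneg (h.x0 b d) (sq_nonneg _)
    calc Df b ^ 2 ≤ (β * ∑ d ∈ U, x b d * (1 * (f d * ψ (x d b)))) ^ 2 :=
          pow_le_pow_left₀ (Df0 b) (Df1 b hb) 2
      _ = β ^ 2 * (∑ d ∈ U, x b d * (1 * (f d * ψ (x d b)))) ^ 2 := by ring
      _ ≤ β ^ 2 * ((∑ e ∈ U, x b e * (1 : ℝ) ^ 2) * ∑ d ∈ U, x b d * (f d * ψ (x d b)) ^ 2) :=
          mul_le_mul_of_nonneg_left h1 (sq_nonneg β)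
      _ ≤ β ^ 2 * ((1 - κ b) * ∑ d ∈ U, x b d * (f d * ψ (x d b)) ^ 2) :=
          mul_le_mul_of_nonneg_left (mul_le_mul_of_nonneg_right h2 h3) (sq_nonneg β)
  -- the double sum
  have dbl : ∑ b ∈ U, ∑ d ∈ U, x b d * (f d * ψ (x d b)) ^ 2 ≤ (c / 2) ^ 2 * M := by
    rw [Finset.sum_comm]
    calc ∑ d ∈ U, ∑ b ∈ U, x b d * (f d * ψ (x d b)) ^ 2
        ≤ ∑ d ∈ U, (c / 2) ^ 2 * f d := by
          refine Finset.sum_le_sum fun d hd => ?_
          have hv := vI d hd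
          have hψv : 0 ≤ ψ (1 - κ d) := hψ.p0 _ hv
          have h1 : ∀ b ∈ U, x b d * (f d * ψ (x d b)) ^ 2
              ≤ x d b * (f d ^ 2 * ψ (1 - κ d) ^ 2) := by
            intro b hb
            rw [h.xs b d, mul_pow]
            refine mul_le_mul_of_nonneg_left ?_ (h.x0 d b)
            refine mul_le_mul_of_nonneg_left ?_ (sq_nonneg _)
            exact pow_le_pow_left₀ (ψ0 d hd b hb)
              (hψ.mono _ _ (h.x0 d b) (h.le1 hd hb) hv.2) 2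
          have h2 := hψ.hc _ hv
          have hfd := hf.f0 d
          have hfk := hf.fκ d hd
          have hrow := h.row d hd
          calc ∑ b ∈ U, x b d * (f d * ψ (x d b)) ^ 2
              ≤ ∑ b ∈ U, x d b * (f d ^ 2 * ψ (1 - κ d) ^ 2) := Finset.sum_le_sum h1
            _ = (∑ b ∈ U, x d b) * (f d ^ 2 * ψ (1 - κ d) ^ 2) := by rw [Finset.sum_mul]
            _ ≤ (1 - κ d) * (f d ^ 2 * ψ (1 - κ d) ^ 2) :=
                mul_le_mul_of_nonneg_right hrow (by positivity)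
            _ = f d * ((1 - κ d) * ψ (1 - κ d) ^ 2) * f d := by ring
            _ ≤ κ d * ((1 - κ d) * ψ (1 - κ d) ^ 2) * f d := by
                refine mul_le_mul_of_nonneg_right ?_ hfd
                exact mul_le_mul_of_nonneg_right hfk (mul_nonneg hv.1 (sq_nonneg _))
            _ = ((1 - κ d) * (1 - (1 - κ d)) * ψ (1 - κ d) ^ 2) * f d := by ring
            _ ≤ (c / 2) ^ 2 * f d := mul_le_mul_of_nonneg_right h2 hfd
      _ = (c / 2) ^ 2 * ∑ d ∈ U, f d := by rw [Finset.mul_sum]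
      _ ≤ (c / 2) ^ 2 * M := mul_le_mul_of_nonneg_left hf.fM (sq_nonneg _)
  refine nm_le (by have := Real.sqrt_nonneg lam; have := Real.sqrt_nonneg M; positivity) ?_
  calc ∑ e ∈ U, (∑ b ∈ U, T e b * Df b) ^ 2
      ≤ ∑ e ∈ U, m ^ 2 * (G e * ∑ b ∈ U, x e b * (G b * Df b)) ^ 2 := by
        refine Finset.sum_le_sum fun e he => ?_
        have h1 : ∑ b ∈ U, T e b * Df b ≤ m * (G e * ∑ b ∈ U, x e b * (G b * Df b)) := by
          rw [Finset.mul_sum, Finset.mul_sum]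
          refine Finset.sum_le_sum fun b hb => ?_
          have := mul_le_mul_of_nonneg_right (hK.le e he b hb) (Df0 b)
          calc T e b * Df b ≤ m * (x e b * (G e * G b)) * Df b := this
            _ = m * (G e * (x e b * (G b * Df b))) := by ring
        have h0 : 0 ≤ ∑ b ∈ U, T e b * Df b :=
          Finset.sum_nonneg fun b _ => mul_nonneg (hK.T0 e b) (Df0 b)
        calc (∑ b ∈ U, T e b * Df b) ^ 2
            ≤ (m * (G e * ∑ b ∈ U, x e b * (G b * Df b))) ^ 2 := pow_le_pow_left₀ h0 h1 2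
          _ = m ^ 2 * (G e * ∑ b ∈ U, x e b * (G b * Df b)) ^ 2 := by ring
    _ = m ^ 2 * ∑ e ∈ U, (G e * ∑ b ∈ U, x e b * (G b * Df b)) ^ 2 := by rw [Finset.mul_sum]
    _ ≤ m ^ 2 * (lam * ∑ b ∈ U, (1 - κ b) * (G b * Df b) ^ 2) :=
        mul_le_mul_of_nonneg_left (hgx fun b => G b * Df b) (sq_nonneg m)
    _ ≤ m ^ 2 * (lam * ∑ b ∈ U, β ^ 2 * (g ^ 2 * ∑ d ∈ U, x b d * (f d * ψ (x d b)) ^ 2)) := by
        refine mul_le_mul_of_nonneg_left ?_ (sq_nonneg m)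
        refine mul_le_mul_of_nonneg_left ?_ hK.lam0
        refine Finset.sum_le_sum fun b hb => ?_
        have hS : 0 ≤ ∑ d ∈ U, x b d * (f d * ψ (x d b)) ^ 2 :=
          Finset.sum_nonneg fun d _ => mul_nonneg (h.x0 b d) (sq_nonneg _)
        have hGb : (G b * (1 - κ b)) ^ 2 ≤ g ^ 2 :=
          pow_le_pow_left₀ (mul_nonneg (hK.G0 b hb) (h.κ1 hb)) (hK.hg b hb) 2
        calc (1 - κ b) * (G b * Df b) ^ 2 = ((1 - κ b) * G b ^ 2) * Df b ^ 2 := by ring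
          _ ≤ ((1 - κ b) * G b ^ 2) *
              (β ^ 2 * ((1 - κ b) * ∑ d ∈ U, x b d * (f d * ψ (x d b)) ^ 2)) :=
              mul_le_mul_of_nonneg_left (Df2 b hb) (mul_nonneg (h.κ1 hb) (sq_nonneg _))
          _ = β ^ 2 * ((G b * (1 - κ b)) ^ 2 * ∑ d ∈ U, x b d * (f d * ψ (x d b)) ^ 2) := by ring
          _ ≤ β ^ 2 * (g ^ 2 * ∑ d ∈ U, x b d * (f d * ψ (x d b)) ^ 2) :=
              mul_le_mul_of_nonneg_left (mul_le_mul_of_nonneg_right hGb hS) (sq_nonneg β)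
    _ = m ^ 2 * (lam * (β ^ 2 * (g ^ 2 * ∑ b ∈ U, ∑ d ∈ U, x b d * (f d * ψ (x d b)) ^ 2))) := by
        simp only [Finset.mul_sum]
    _ ≤ m ^ 2 * (lam * (β ^ 2 * (g ^ 2 * ((c / 2) ^ 2 * M)))) := by
        refine mul_le_mul_of_nonneg_left ?_ (sq_nonneg m)
        refine mul_le_mul_of_nonneg_left ?_ hK.lam0
        refine mul_le_mul_of_nonneg_left ?_ (sq_nonneg β)
        exact mul_le_mul_of_nonneg_left dbl (sq_nonneg g)
    _ = (m * (Real.sqrt lam * (β * (c / 2 * g))) * Real.sqrt M) ^ 2 := by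
        have e1 := Real.sq_sqrt hK.lam0
        have e2 := Real.sq_sqrt M0
        calc m ^ 2 * (lam * (β ^ 2 * (g ^ 2 * ((c / 2) ^ 2 * M))))
            = m ^ 2 * (Real.sqrt lam ^ 2 * (β ^ 2 * (g ^ 2 * ((c / 2) ^ 2 * Real.sqrt M ^ 2)))) := by
              rw [e1, e2]
          _ = _ := by ring

end Pool.Agent.RX.EPS
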