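import Pool.Agent.RX.EPS.Defs

/-! Squad EPS (MP_73ccd0_lc). -/

namespace Pool.Agent.RX.EPS

open Set Finset

set_option linter.unusedSectionVars false

variable {V : Type*} [Fintype V] [DecidableEq V]
variable {U : Finset V} {x : V → V → ℝ} {κ G f : V → ℝ} {T : V → V → ℝ}
variable {m lam g s M β c : ℝ} {ψ : ℝ → ℝ}

/-- Pointwise: with `p = 1 - κ b`, `y = x z b ≤ p`: `(p - y) G² y ψ(y)² ≤ (g c / 2)²`. If `p = 0` both
sides are trivial; otherwise put `v = y / p ∈ [0, 1]`; `y ≤ v`, so `ψ y ≤ ψ v`, and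
`(p - y) y = p² v (1 - v)`, `G p ≤ g`, `v (1 - v) ψ(v)² ≤ (c / 2)²`. -/
theorem pt_z (h : Wx U x κ) (hK : Kx U x κ G m lam g s T) (hψ : Ps ψ c) {z b : V} (hz : z ∈ U)
    (hb : b ∈ U) : (1 - κ b - x z b) * (G b ^ 2 * (x z b * ψ (x z b) ^ 2)) ≤ (c / 2 * g) ^ 2 := by
  have hp0 := h.κ1 hb
  have hy0 : 0 ≤ x z b := h.x0 z b
  have hyp : x z b ≤ 1 - κ b := by rw [h.xs z b]; exact h.le1 hb hz
  have hp1 : 1 - κ b ≤ 1 := by linarith [h.κ0 b hb]
  have hg := hK.hg b hb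
  have hG := hK.G0 b hb
  set p := 1 - κ b with hp
  set y := x z b with hy
  rcases hp0.eq_or_lt with hpz | hpos
  · have : y = 0 := le_antisymm (by rw [hpz]; exact hyp) hy0
    rw [this]
    simp
    positivity
  · have hv0 : 0 ≤ y / p := div_nonneg hy0 hpos.le
    have hv1 : y / p ≤ 1 := (div_le_one hpos).2 hyp
    have hyv : y ≤ y / p := by
      rw [le_div_iff₀ hpos]
      nlinarith
    have hm := hψ.mono y (y / p) hy0 hyv hv1
    have hψ0 := hψ.p0 y ⟨hy0, hyp.trans hp1⟩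
    have hc := hψ.hc (y / p) ⟨hv0, hv1⟩
    set v := y / p with hv
    have hyv' : y = p * v := by rw [hv]; field_simp
    have h1 : v * (1 - v) * ψ y ^ 2 ≤ (c / 2) ^ 2 :=
      le_trans (mul_le_mul_of_nonneg_left (pow_le_pow_left₀ hψ0 hm 2)
        (mul_nonneg hv0 (by linarith))) hc
    have h2 : (G b * p) ^ 2 ≤ g ^ 2 := pow_le_pow_left₀ (mul_nonneg hG hpos.le) hg 2
    have h3 : 0 ≤ v * (1 - v) * ψ y ^ 2 :=
      mul_nonneg (mul_nonneg hv0 (by linarith)) (sq_nonneg _)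
    calc (p - y) * (G b ^ 2 * (y * ψ y ^ 2))
        = (p - p * v) * (G b ^ 2 * ((p * v) * ψ y ^ 2)) := by rw [← hyv']
      _ = (G b * p) ^ 2 * (v * (1 - v) * ψ y ^ 2) := by ring
      _ ≤ g ^ 2 * (c / 2) ^ 2 := mul_le_mul h2 h1 h3 (sq_nonneg _)
      _ = (c / 2 * g) ^ 2 := by ring

/-- `‖T D‖` for a source with one centre `z`. `T e b D b ≤ m G_e x_eb (G_b D_b)`, the lemma `gxz` below
with `φ = G D`, then `pt_z` and `Σ_b x z b ≤ 1`. (`gxz` is proved in the module XRow, here it is a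
hypothesis.) -/
theorem TD_z (h : Wx U x κ) (hK : Kx U x κ G m lam g s T) (hψ : Ps ψ c) {z : V} (hz : z ∈ U)
    (hgxz : ∀ φ : V → ℝ, ∑ e ∈ U.erase z, (G e * ∑ b ∈ U.erase z, x e b * φ b) ^ 2
      ≤ lam * ∑ b ∈ U.erase z, (1 - κ b - x z b) * φ b ^ 2)
    (β0 : 0 ≤ β) {D : V → ℝ} (D0 : ∀ e, 0 ≤ D e)
    (hD : ∀ e ∈ U.erase z, D e ≤ β * (x z e * ψ (x z e))) :
    nm (U.erase z) (fun e => ∑ b ∈ U.erase z, T e b * D b)
      ≤ m * (Real.sqrt lam * (β * (c / 2 * g))) := by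
  have hm0 := hK.m0
  have hlam := hK.lam0
  have hg0 := hK.g0
  have hc0 := hψ.c0
  refine nm_le (mul_nonneg hm0 (mul_nonneg (Real.sqrt_nonneg _) (mul_nonneg β0
    (mul_nonneg (by linarith) hg0)))) ?_
  -- pointwise bound of the inner sums
  have h1 : ∀ e ∈ U.erase z, (∑ b ∈ U.erase z, T e b * D b) ^ 2
      ≤ m ^ 2 * (G e * ∑ b ∈ U.erase z, x e b * (G b * D b)) ^ 2 := by
    intro e he
    have heU := Finset.mem_of_mem_erase he
    rw [← mul_pow]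
    refine pow_le_pow_left₀ (Finset.sum_nonneg fun b _ => mul_nonneg (hK.T0 e b) (D0 b)) ?_ 2
    rw [Finset.mul_sum, Finset.mul_sum]
    refine Finset.sum_le_sum fun b hb => ?_
    have h3 := mul_le_mul_of_nonneg_right (hK.le e heU b (Finset.mem_of_mem_erase hb)) (D0 b)
    calc T e b * D b ≤ m * (x e b * (G e * G b)) * D b := h3
      _ = m * (G e * (x e b * (G b * D b))) := by ring
  have h2 := hgxz (fun b => G b * D b)
  have h4 : ∑ b ∈ U.erase z, (1 - κ b - x z b) * (G b * D b) ^ 2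
      ≤ (β * (c / 2 * g)) ^ 2 := by
    have h5 : ∀ b ∈ U.erase z, (1 - κ b - x z b) * (G b * D b) ^ 2
        ≤ (β * (c / 2 * g)) ^ 2 * x z b := by
      intro b hb
      have hbU := Finset.mem_of_mem_erase hb
      have hy0 : 0 ≤ x z b := h.x0 z b
      have hyp : 0 ≤ 1 - κ b - x z b := by
        have := h.le1 hbU hz
        rw [h.xs z b]; linarith
      have h6 := pt_z h hK hψ hz hbU
      have h7 : D b ^ 2 ≤ (β * (x z b * ψ (x z b))) ^ 2 :=
        pow_le_pow_left₀ (D0 b) (hD b hb) 2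
      calc (1 - κ b - x z b) * (G b * D b) ^ 2
          = ((1 - κ b - x z b) * G b ^ 2) * D b ^ 2 := by ring
        _ ≤ ((1 - κ b - x z b) * G b ^ 2) * (β * (x z b * ψ (x z b))) ^ 2 :=
            mul_le_mul_of_nonneg_left h7 (mul_nonneg hyp (sq_nonneg _))
        _ = (β ^ 2 * x z b) * ((1 - κ b - x z b) * (G b ^ 2 * (x z b * ψ (x z b) ^ 2))) := by
            ring
        _ ≤ (β ^ 2 * x z b) * (c / 2 * g) ^ 2 :=
            mul_le_mul_of_nonneg_left h6 (mul_nonneg (sq_nonneg _) hy0)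
        _ = (β * (c / 2 * g)) ^ 2 * x z b := by ring
    have h8 : ∑ b ∈ U.erase z, x z b ≤ 1 := by
      have := h.rowS (Finset.erase_subset z U) hz
      linarith [h.κ0 z hz]
    calc ∑ b ∈ U.erase z, (1 - κ b - x z b) * (G b * D b) ^ 2
        ≤ ∑ b ∈ U.erase z, (β * (c / 2 * g)) ^ 2 * x z b := Finset.sum_le_sum h5
      _ = (β * (c / 2 * g)) ^ 2 * ∑ b ∈ U.erase z, x z b := (Finset.mul_sum _ _ _).symm
      _ ≤ (β * (c / 2 * g)) ^ 2 * 1 := mul_le_mul_of_nonneg_left h8 (sq_nonneg _)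
      _ = (β * (c / 2 * g)) ^ 2 := mul_one _
  calc ∑ e ∈ U.erase z, (∑ b ∈ U.erase z, T e b * D b) ^ 2
      ≤ ∑ e ∈ U.erase z, m ^ 2 * (G e * ∑ b ∈ U.erase z, x e b * (G b * D b)) ^ 2 :=
        Finset.sum_le_sum h1
    _ = m ^ 2 * ∑ e ∈ U.erase z, (G e * ∑ b ∈ U.erase z, x e b * (G b * D b)) ^ 2 :=
        (Finset.mul_sum _ _ _).symm
    _ ≤ m ^ 2 * (lam * ∑ b ∈ U.erase z, (1 - κ b - x z b) * (G b * D b) ^ 2) :=
        mul_le_mul_of_nonneg_left h2 (sq_nonneg _)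
    _ ≤ m ^ 2 * (lam * (β * (c / 2 * g)) ^ 2) :=
        mul_le_mul_of_nonneg_left (mul_le_mul_of_nonneg_left h4 hlam) (sq_nonneg _)
    _ = (m * (Real.sqrt lam * (β * (c / 2 * g)))) ^ 2 := by
        have := Real.sq_sqrt hlam
        calc m ^ 2 * (lam * (β * (c / 2 * g)) ^ 2)
            = m ^ 2 * (Real.sqrt lam ^ 2 * (β * (c / 2 * g)) ^ 2) := by rw [this]
          _ = _ := by ring

end Pool.Agent.RX.EPS
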