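import Pool.Agent.RX.EPS.Defs

/-! Squad EPS (MP_73ccd0_lc). -/

namespace Pool.Agent.RX.EPS

open Set Finset

set_option linter.unusedSectionVars false

variable {V : Type*} [Fintype V] [DecidableEq V]
variable {U : Finset V} {x : V → V → ℝ} {κ G f : V → ℝ} {T : V → V → ℝ}
variable {m lam g s M β c : ℝ} {ψ : ℝ → ℝ}

/-- Cauchy-Schwarz with the weights `x e g` (`cs_sq` with `w = 1`, then `Wx.rowS`). -/
theorem x_cs (h : Wx U x κ) {S : Finset V} (hS : S ⊆ U) {e : V} (he : e ∈ U) (φ : V → ℝ) :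
    (∑ b ∈ S, x e b * φ b) ^ 2 ≤ (1 - κ e) * ∑ b ∈ S, x e b * φ b ^ 2 := by
  have h1 := cs_sq S (q := fun b => x e b) (fun b _ => h.x0 e b) (fun _ => (1 : ℝ)) φ
  simp only [one_mul, one_pow, mul_one] at h1
  exact h1.trans (mul_le_mul_of_nonneg_right (h.rowS hS he)
    (Finset.sum_nonneg fun b _ => mul_nonneg (h.x0 e b) (sq_nonneg _)))

/-- `‖G X φ‖² ≤ lam Σ (1 - κ) φ²`: by `x_cs` each term is at most
`G e ^ 2 (1 - κ e) Σ_b x e b φ b ^ 2 ≤ lam Σ_b x e b φ b ^ 2`; exchange the sums, `x` is symmetric,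
and `Σ_e x b e ≤ 1 - κ b`. -/
theorem gx (h : Wx U x κ) (l0 : 0 ≤ lam) (hl : ∀ u ∈ U, G u ^ 2 * (1 - κ u) ≤ lam) (φ : V → ℝ) :
    ∑ e ∈ U, (G e * ∑ b ∈ U, x e b * φ b) ^ 2 ≤ lam * ∑ b ∈ U, (1 - κ b) * φ b ^ 2 := by
  calc ∑ e ∈ U, (G e * ∑ b ∈ U, x e b * φ b) ^ 2
      ≤ ∑ e ∈ U, lam * ∑ b ∈ U, x e b * φ b ^ 2 := by
        refine Finset.sum_le_sum fun e he => ?_
        have h0 : 0 ≤ ∑ b ∈ U, x e b * φ b ^ 2 :=
          Finset.sum_nonneg fun b _ => mul_nonneg (h.x0 e b) (sq_nonneg _)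
        calc (G e * ∑ b ∈ U, x e b * φ b) ^ 2 = G e ^ 2 * (∑ b ∈ U, x e b * φ b) ^ 2 := by ring
          _ ≤ G e ^ 2 * ((1 - κ e) * ∑ b ∈ U, x e b * φ b ^ 2) :=
            mul_le_mul_of_nonneg_left (x_cs h (Finset.Subset.refl U) he φ) (sq_nonneg _)
          _ = (G e ^ 2 * (1 - κ e)) * ∑ b ∈ U, x e b * φ b ^ 2 := by ring
          _ ≤ lam * ∑ b ∈ U, x e b * φ b ^ 2 := mul_le_mul_of_nonneg_right (hl e he) h0
    _ = lam * ∑ b ∈ U, (∑ e ∈ U, x b e) * φ b ^ 2 := by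
        rw [← Finset.mul_sum, Finset.sum_comm]
        congr 1
        refine Finset.sum_congr rfl fun b _ => ?_
        rw [Finset.sum_mul]
        exact Finset.sum_congr rfl fun e _ => by rw [h.xs e b]
    _ ≤ lam * ∑ b ∈ U, (1 - κ b) * φ b ^ 2 :=
        mul_le_mul_of_nonneg_left (Finset.sum_le_sum fun b hb =>
          mul_le_mul_of_nonneg_right (h.row b hb) (sq_nonneg _)) l0

/-- The same without `z` (same proof; at the end `Σ_{e ≠ z} x b e ≤ 1 - κ b - x z b`, `Wx.rowz`). -/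
theorem gxz (h : Wx U x κ) (l0 : 0 ≤ lam) (hl : ∀ u ∈ U, G u ^ 2 * (1 - κ u) ≤ lam) {z : V}
    (hz : z ∈ U) (φ : V → ℝ) :
    ∑ e ∈ U.erase z, (G e * ∑ b ∈ U.erase z, x e b * φ b) ^ 2
      ≤ lam * ∑ b ∈ U.erase z, (1 - κ b - x z b) * φ b ^ 2 := by
  calc ∑ e ∈ U.erase z, (G e * ∑ b ∈ U.erase z, x e b * φ b) ^ 2
      ≤ ∑ e ∈ U.erase z, lam * ∑ b ∈ U.erase z, x e b * φ b ^ 2 := by
        refine Finset.sum_le_sum fun e he => ?_
        have heU : e ∈ U := Finset.mem_of_mem_erase he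
        have h0 : 0 ≤ ∑ b ∈ U.erase z, x e b * φ b ^ 2 :=
          Finset.sum_nonneg fun b _ => mul_nonneg (h.x0 e b) (sq_nonneg _)
        calc (G e * ∑ b ∈ U.erase z, x e b * φ b) ^ 2
            = G e ^ 2 * (∑ b ∈ U.erase z, x e b * φ b) ^ 2 := by ring
          _ ≤ G e ^ 2 * ((1 - κ e) * ∑ b ∈ U.erase z, x e b * φ b ^ 2) :=
            mul_le_mul_of_nonneg_left (x_cs h (Finset.erase_subset z U) heU φ) (sq_nonneg _)
          _ = (G e ^ 2 * (1 - κ e)) * ∑ b ∈ U.erase z, x e b * φ b ^ 2 := by ring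
          _ ≤ lam * ∑ b ∈ U.erase z, x e b * φ b ^ 2 :=
            mul_le_mul_of_nonneg_right (hl e heU) h0
    _ = lam * ∑ b ∈ U.erase z, (∑ e ∈ U.erase z, x b e) * φ b ^ 2 := by
        rw [← Finset.mul_sum, Finset.sum_comm]
        congr 1
        refine Finset.sum_congr rfl fun b _ => ?_
        rw [Finset.sum_mul]
        exact Finset.sum_congr rfl fun e _ => by rw [h.xs e b]
    _ ≤ lam * ∑ b ∈ U.erase z, (1 - κ b - x z b) * φ b ^ 2 :=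
        mul_le_mul_of_nonneg_left (Finset.sum_le_sum fun b hb =>
          mul_le_mul_of_nonneg_right
            (h.rowz hz (Finset.Subset.refl _) (Finset.mem_of_mem_erase hb)) (sq_nonneg _)) l0

end Pool.Agent.RX.EPS
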