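import Pool.Agent.RX.EPS.Defs

/-! Squad EPS (MP_73ccd0_lc). -/

namespace Pool.Agent.RX.EPS

open Set Finset

set_option linter.unusedSectionVars false

variable {V : Type*} [Fintype V] [DecidableEq V]
variable {U : Finset V} {x : V → V → ℝ} {κ G f : V → ℝ} {T : V → V → ℝ}
variable {m lam g s M β c : ℝ} {ψ : ℝ → ℝ}

/-- The tested kernel. Put `p_u = 1 - κ_u`, `a_dz = x_dz α_dz`. Cauchy-Schwarz with the weights `√p_d`:
`(Σ_d f_d a_dz)² ≤ (Σ_d a_dz √p_d) (Σ_d a_dz f_d² / √p_d)`; `Σ_d a_dz √p_d ≤ lA √p_z` (if `p_z = 0` all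
`x_dz = 0`; otherwise `√p_d α_dz ≤ lA / √p_z` and `Σ_d x_dz ≤ p_z`). Sum over `z` and exchange:
`Σ_z √p_z Σ_d a_dz f_d² / √p_d = Σ_d (f_d² / √p_d) Σ_z x_dz √p_z α_dz`, and
`f_d √p_z α_dz ≤ κ_d √p_z α_dz ≤ sA / √p_d`, so this is at most `Σ_d f_d sA Σ_z x_dz / p_d ≤ sA M`. -/
theorem fA_norm (h : Wx U x κ) (hf : Fw U κ f M) {A α : V → V → ℝ} {lA sA : ℝ} (m0 : 0 ≤ m)
    (l0 : 0 ≤ lA) (s0 : 0 ≤ sA) (A0 : ∀ u v, 0 ≤ A u v) (α0 : ∀ u v, 0 ≤ α u v)
    (le : ∀ u ∈ U, ∀ v ∈ U, A u v ≤ m * (x u v * α u v))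
    (hα : ∀ u ∈ U, ∀ v ∈ U, Real.sqrt (1 - κ u) * Real.sqrt (1 - κ v) * α u v ≤ lA)
    (hs : ∀ u ∈ U, ∀ v ∈ U, κ u * (Real.sqrt (1 - κ u) * Real.sqrt (1 - κ v) * α u v) ≤ sA) :
    nm U (fun z => ∑ d ∈ U, f d * A d z) ≤ m * Real.sqrt (lA * sA) * Real.sqrt M := by
  classical
  have q0 : ∀ u : V, 0 ≤ Real.sqrt (1 - κ u) := fun u => Real.sqrt_nonneg _
  have a0 : ∀ u v : V, 0 ≤ x u v * α u v := fun u v => mul_nonneg (h.x0 u v) (α0 u v)
  -- weights vanish at saturated vertices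
  have hz0 : ∀ u ∈ U, Real.sqrt (1 - κ u) = 0 → ∀ v ∈ U, x u v = 0 := by
    intro u hu hq v hv
    have h1 : 1 - κ u ≤ 0 := Real.sqrt_eq_zero'.1 hq
    exact le_antisymm ((h.le1 hu hv).trans h1) (h.x0 u v)
  -- first factor
  have F1 : ∀ z ∈ U, ∑ d ∈ U, x d z * α d z * Real.sqrt (1 - κ d) ≤ lA * Real.sqrt (1 - κ z) := by
    intro z hz
    rcases (q0 z).eq_or_lt with hq | hq
    · have h1 : ∑ d ∈ U, x d z * α d z * Real.sqrt (1 - κ d) = 0 :=
        Finset.sum_eq_zero fun d hd => by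
          rw [h.xs d z, hz0 z hz hq.symm d hd, zero_mul, zero_mul]
      rw [h1]
      exact mul_nonneg l0 (q0 z)
    · have h1 : ∀ d ∈ U, x d z * α d z * Real.sqrt (1 - κ d)
          ≤ (lA / Real.sqrt (1 - κ z)) * x z d := by
        intro d hd
        have h2 := hα d hd z hz
        have h3 : α d z * Real.sqrt (1 - κ d) ≤ lA / Real.sqrt (1 - κ z) := by
          rw [le_div_iff₀ hq]
          calc α d z * Real.sqrt (1 - κ d) * Real.sqrt (1 - κ z)
              = Real.sqrt (1 - κ d) * Real.sqrt (1 - κ z) * α d z := by ring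
            _ ≤ lA := h2
        calc x d z * α d z * Real.sqrt (1 - κ d) = x z d * (α d z * Real.sqrt (1 - κ d)) := by
              rw [h.xs d z]; ring
          _ ≤ x z d * (lA / Real.sqrt (1 - κ z)) := mul_le_mul_of_nonneg_left h3 (h.x0 z d)
          _ = _ := by ring
      calc ∑ d ∈ U, x d z * α d z * Real.sqrt (1 - κ d)
          ≤ ∑ d ∈ U, (lA / Real.sqrt (1 - κ z)) * x z d := Finset.sum_le_sum h1
        _ = (lA / Real.sqrt (1 - κ z)) * ∑ d ∈ U, x z d := by rw [Finset.mul_sum]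
        _ ≤ (lA / Real.sqrt (1 - κ z)) * (1 - κ z) :=
            mul_le_mul_of_nonneg_left (h.row z hz) (div_nonneg l0 (q0 z))
        _ = lA * Real.sqrt (1 - κ z) := by
            have h4 : Real.sqrt (1 - κ z) * Real.sqrt (1 - κ z) = 1 - κ z :=
              Real.mul_self_sqrt (h.κ1 hz)
            rw [div_mul_eq_mul_div, div_eq_iff hq.ne']
            calc lA * (1 - κ z) = lA * (Real.sqrt (1 - κ z) * Real.sqrt (1 - κ z)) := by rw [h4]
              _ = _ := by ring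
  -- Cauchy-Schwarz
  have CS : ∀ z ∈ U, (∑ d ∈ U, f d * (x d z * α d z)) ^ 2
      ≤ (lA * Real.sqrt (1 - κ z)) *
        ∑ d ∈ U, x d z * α d z * (f d ^ 2 / Real.sqrt (1 - κ d)) := by
    intro z hz
    have h1 := cs_sq U (q := fun d => x d z * α d z) (fun d _ => a0 d z)
      (fun d => Real.sqrt (Real.sqrt (1 - κ d))) (fun d => f d / Real.sqrt (Real.sqrt (1 - κ d)))
    have e1 : ∑ d ∈ U, x d z * α d z * (Real.sqrt (Real.sqrt (1 - κ d)) *
        (f d / Real.sqrt (Real.sqrt (1 - κ d)))) = ∑ d ∈ U, f d * (x d z * α d z) := by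
      refine Finset.sum_congr rfl fun d hd => ?_
      rcases (q0 d).eq_or_lt with hq | hq
      · rw [hz0 d hd hq.symm z hz]
        ring
      · have h2 : Real.sqrt (Real.sqrt (1 - κ d)) ≠ 0 := (Real.sqrt_pos.2 hq).ne'
        rw [mul_div_cancel₀ _ h2]
        ring
    have e2 : ∑ d ∈ U, x d z * α d z * Real.sqrt (Real.sqrt (1 - κ d)) ^ 2
        = ∑ d ∈ U, x d z * α d z * Real.sqrt (1 - κ d) :=
      Finset.sum_congr rfl fun d _ => by rw [Real.sq_sqrt (q0 d)]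
    have e3 : ∑ d ∈ U, x d z * α d z * (f d / Real.sqrt (Real.sqrt (1 - κ d))) ^ 2
        = ∑ d ∈ U, x d z * α d z * (f d ^ 2 / Real.sqrt (1 - κ d)) :=
      Finset.sum_congr rfl fun d _ => by rw [div_pow, Real.sq_sqrt (q0 d)]
    rw [e1, e2, e3] at h1
    refine h1.trans (mul_le_mul_of_nonneg_right (F1 z hz) ?_)
    exact Finset.sum_nonneg fun d _ => mul_nonneg (a0 d z) (div_nonneg (sq_nonneg _) (q0 d))
  -- the double sum
  have D1 : ∀ d ∈ U, ∑ z ∈ U, Real.sqrt (1 - κ z) *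
      (x d z * α d z * (f d ^ 2 / Real.sqrt (1 - κ d))) ≤ sA * f d := by
    intro d hd
    rcases (q0 d).eq_or_lt with hq | hq
    · have h1 : ∑ z ∈ U, Real.sqrt (1 - κ z) *
          (x d z * α d z * (f d ^ 2 / Real.sqrt (1 - κ d))) = 0 :=
        Finset.sum_eq_zero fun z hz => by
          rw [hz0 d hd hq.symm z hz]; ring
      rw [h1]
      exact mul_nonneg s0 (hf.f0 d)
    · have hp : 0 < 1 - κ d := Real.sqrt_pos.1 hq
      have h1 : ∀ z ∈ U, Real.sqrt (1 - κ z) *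
          (x d z * α d z * (f d ^ 2 / Real.sqrt (1 - κ d))) ≤ (sA * f d / (1 - κ d)) * x d z := by
        intro z hz
        have h2 := hs d hd z hz
        have h3 : f d * (Real.sqrt (1 - κ z) * α d z) ≤ sA / Real.sqrt (1 - κ d) := by
          rw [le_div_iff₀ hq]
          calc f d * (Real.sqrt (1 - κ z) * α d z) * Real.sqrt (1 - κ d)
              ≤ κ d * (Real.sqrt (1 - κ z) * α d z) * Real.sqrt (1 - κ d) :=
                mul_le_mul_of_nonneg_right (mul_le_mul_of_nonneg_right (hf.fκ d hd)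
                  (mul_nonneg (q0 z) (α0 d z))) (q0 d)
            _ = κ d * (Real.sqrt (1 - κ d) * Real.sqrt (1 - κ z) * α d z) := by ring
            _ ≤ sA := h2
        have h4 : Real.sqrt (1 - κ d) * Real.sqrt (1 - κ d) = 1 - κ d :=
          Real.mul_self_sqrt (h.κ1 hd)
        calc Real.sqrt (1 - κ z) * (x d z * α d z * (f d ^ 2 / Real.sqrt (1 - κ d)))
            = (f d / Real.sqrt (1 - κ d) * x d z) * (f d * (Real.sqrt (1 - κ z) * α d z)) := by
              ring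
          _ ≤ (f d / Real.sqrt (1 - κ d) * x d z) * (sA / Real.sqrt (1 - κ d)) :=
              mul_le_mul_of_nonneg_left h3
                (mul_nonneg (div_nonneg (hf.f0 d) (q0 d)) (h.x0 d z))
          _ = (sA * f d / (Real.sqrt (1 - κ d) * Real.sqrt (1 - κ d))) * x d z := by
              field_simp
          _ = _ := by rw [h4]
      calc ∑ z ∈ U, Real.sqrt (1 - κ z) *
          (x d z * α d z * (f d ^ 2 / Real.sqrt (1 - κ d)))
          ≤ ∑ z ∈ U, (sA * f d / (1 - κ d)) * x d z := Finset.sum_le_sum h1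
        _ = (sA * f d / (1 - κ d)) * ∑ z ∈ U, x d z := by rw [Finset.mul_sum]
        _ ≤ (sA * f d / (1 - κ d)) * (1 - κ d) :=
            mul_le_mul_of_nonneg_left (h.row d hd)
              (div_nonneg (mul_nonneg s0 (hf.f0 d)) hp.le)
        _ = sA * f d := div_mul_cancel₀ _ hp.ne'
  have D2 : ∑ z ∈ U, (∑ d ∈ U, f d * (x d z * α d z)) ^ 2 ≤ lA * (sA * M) := by
    calc ∑ z ∈ U, (∑ d ∈ U, f d * (x d z * α d z)) ^ 2
        ≤ ∑ z ∈ U, (lA * Real.sqrt (1 - κ z)) *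
          ∑ d ∈ U, x d z * α d z * (f d ^ 2 / Real.sqrt (1 - κ d)) := Finset.sum_le_sum CS
      _ = lA * ∑ z ∈ U, ∑ d ∈ U, Real.sqrt (1 - κ z) *
          (x d z * α d z * (f d ^ 2 / Real.sqrt (1 - κ d))) := by
          rw [Finset.mul_sum]
          refine Finset.sum_congr rfl fun z _ => ?_
          rw [mul_assoc, Finset.mul_sum]
      _ = lA * ∑ d ∈ U, ∑ z ∈ U, Real.sqrt (1 - κ z) *
          (x d z * α d z * (f d ^ 2 / Real.sqrt (1 - κ d))) := by rw [Finset.sum_comm]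
      _ ≤ lA * ∑ d ∈ U, sA * f d := mul_le_mul_of_nonneg_left (Finset.sum_le_sum D1) l0
      _ = lA * (sA * ∑ d ∈ U, f d) := by rw [← Finset.mul_sum]
      _ ≤ lA * (sA * M) :=
          mul_le_mul_of_nonneg_left (mul_le_mul_of_nonneg_left hf.fM s0) l0
  refine nm_le (mul_nonneg (mul_nonneg m0 (Real.sqrt_nonneg _)) (Real.sqrt_nonneg _)) ?_
  calc ∑ e ∈ U, (∑ d ∈ U, f d * A d e) ^ 2
      ≤ ∑ e ∈ U, m ^ 2 * (∑ d ∈ U, f d * (x d e * α d e)) ^ 2 := by
        refine Finset.sum_le_sum fun e he => ?_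
        rw [← mul_pow]
        refine pow_le_pow_left₀ (Finset.sum_nonneg fun d _ => mul_nonneg (hf.f0 d) (A0 d e)) ?_ 2
        rw [Finset.mul_sum]
        refine Finset.sum_le_sum fun d hd => ?_
        calc f d * A d e ≤ f d * (m * (x d e * α d e)) :=
              mul_le_mul_of_nonneg_left (le d hd e he) (hf.f0 d)
          _ = _ := by ring
    _ = m ^ 2 * ∑ e ∈ U, (∑ d ∈ U, f d * (x d e * α d e)) ^ 2 := by rw [Finset.mul_sum]
    _ ≤ m ^ 2 * (lA * (sA * M)) := mul_le_mul_of_nonneg_left D2 (sq_nonneg m)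
    _ = (m * Real.sqrt (lA * sA) * Real.sqrt M) ^ 2 := by
        rw [mul_pow, mul_pow, Real.sq_sqrt (mul_nonneg l0 s0), Real.sq_sqrt hf.M0]
        ring

end Pool.Agent.RX.EPS
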