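import Pool.Agent.RX.EPS.Defs

/-! Squad EPS (MP_73ccd0_lc). -/

namespace Pool.Agent.RX.EPS

open Set Finset

set_option linter.unusedSectionVars false

variable {V : Type*} [Fintype V] [DecidableEq V]
variable {U : Finset V} {x : V → V → ℝ} {κ G f : V → ℝ} {T : V → V → ℝ}
variable {m lam g s M β c : ℝ} {ψ : ℝ → ℝ}

/-- `Σ_d f_d T_db ≤ m G_b Σ_d x_bd (G_d f_d)`; the lemma `gx` (hypothesis here) with `φ = G f`:
squares sum to `≤ m² lam Σ_d (1 - κ_d) G_d² f_d²`, and `f_d² G_d² (1 - κ_d) ≤ f_d s²`. -/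
theorem fT_norm (h : Wx U x κ) (hK : Kx U x κ G m lam g s T) (hf : Fw U κ f M)
    (hgx : ∀ φ : V → ℝ, ∑ e ∈ U, (G e * ∑ b ∈ U, x e b * φ b) ^ 2
      ≤ lam * ∑ b ∈ U, (1 - κ b) * φ b ^ 2) :
    nm U (fun b => ∑ d ∈ U, f d * T d b) ≤ m * (s * Real.sqrt lam) * Real.sqrt M := by
  have hm := hK.m0
  have hs0 := hK.s0
  have hl0 := hK.lam0
  have hM0 := hf.M0
  refine nm_le (by positivity) ?_
  have e1 : (m * (s * Real.sqrt lam) * Real.sqrt M) ^ 2 = m ^ 2 * (lam * (s ^ 2 * M)) := by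
    have h1 := Real.sq_sqrt hl0
    have h2 := Real.sq_sqrt hM0
    calc (m * (s * Real.sqrt lam) * Real.sqrt M) ^ 2
        = m ^ 2 * (s ^ 2 * Real.sqrt lam ^ 2) * Real.sqrt M ^ 2 := by ring
      _ = m ^ 2 * (lam * (s ^ 2 * M)) := by rw [h1, h2]; ring
  rw [e1]
  have h1 : ∀ b ∈ U, (∑ d ∈ U, f d * T d b) ^ 2
      ≤ m ^ 2 * (G b * ∑ d ∈ U, x b d * (G d * f d)) ^ 2 := by
    intro b hb
    have n0 : 0 ≤ ∑ d ∈ U, f d * T d b :=
      Finset.sum_nonneg fun d _ => mul_nonneg (hf.f0 d) (hK.T0 d b)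
    have n1 : ∑ d ∈ U, f d * T d b ≤ m * (G b * ∑ d ∈ U, x b d * (G d * f d)) := by
      rw [Finset.mul_sum, Finset.mul_sum]
      refine Finset.sum_le_sum fun d hd => ?_
      have h2 := hK.le d hd b hb
      have h3 := mul_le_mul_of_nonneg_left h2 (hf.f0 d)
      refine h3.trans (le_of_eq ?_)
      rw [h.xs d b]
      ring
    have n2 := pow_le_pow_left₀ n0 n1 2
    refine n2.trans (le_of_eq ?_)
    ring
  refine (Finset.sum_le_sum h1).trans ?_
  rw [← Finset.mul_sum]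
  refine mul_le_mul_of_nonneg_left ?_ (sq_nonneg m)
  refine (hgx fun d => G d * f d).trans ?_
  refine mul_le_mul_of_nonneg_left ?_ hl0
  have h2 : ∀ d ∈ U, (1 - κ d) * (G d * f d) ^ 2 ≤ s ^ 2 * f d := by
    intro d hd
    have k1 := h.κ1 hd
    have k2 := hK.hs d hd
    have k3 := hf.f0 d
    have k4 := hf.fκ d hd
    have k5 : (1 - κ d) * (G d * f d) ^ 2 ≤ f d * (G d ^ 2 * (κ d * (1 - κ d))) := by
      have : 0 ≤ (1 - κ d) * G d ^ 2 * f d * (κ d - f d) :=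
        mul_nonneg (mul_nonneg (mul_nonneg k1 (sq_nonneg _)) k3) (by linarith)
      nlinarith
    have k6 := mul_le_mul_of_nonneg_left k2 k3
    linarith
  refine (Finset.sum_le_sum h2).trans ?_
  rw [← Finset.mul_sum]
  exact mul_le_mul_of_nonneg_left hf.fM (sq_nonneg s)

end Pool.Agent.RX.EPS
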